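import Pool.Agent.Q211.Pair.Main

open Finset Filter

namespace Pool.Agent.Q211.Pair

variable {n m : ℕ}

/-- Largeness thresholds. -/
lemma exists_M0 : ∃ M0 : ℕ, ∀ m : ℕ, M0 ≤ m →
    4 ≤ (m : ℝ) ∧ 300 ≤ Real.log m ∧ Real.log m ^ 2 ≤ Real.exp (-12) / 24 * m := by
  have h1 : ∀ᶠ x : ℝ in atTop, ‖Real.log x ^ 2‖ ≤ Real.exp (-12) / 24 * ‖id x‖ :=
    (Real.isLittleO_pow_log_id_atTop (n := 2)).def (by positivity)
  have h2 : ∀ᶠ x : ℝ in atTop, 300 ≤ Real.log x := Real.tendsto_log_atTop.eventually_ge_atTop 300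
  have h3 : ∀ᶠ x : ℝ in atTop, (4 : ℝ) ≤ x := eventually_ge_atTop 4
  have h4 := (tendsto_natCast_atTop_atTop (R := ℝ)).eventually ((h3.and h2).and h1)
  obtain ⟨M0, hM0⟩ := eventually_atTop.1 h4
  refine ⟨M0, fun m hm => ?_⟩
  obtain ⟨⟨h5, h6⟩, h7⟩ := hM0 m hm
  refine ⟨h5, h6, ?_⟩
  simp only [id, Real.norm_eq_abs] at h7
  rw [abs_of_nonneg (by positivity), abs_of_nonneg (by positivity)] at h7
  exact h7

lemma exp12 : Real.exp (-12) ≤ 1 / 4 := by
  rw [Real.exp_neg, ← one_div]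
  refine one_div_le_one_div_of_le (by norm_num) ?_
  have := Real.add_one_le_exp (12 : ℝ)
  linarith

lemma large_case {p : ℝ} (h0 : 0 < p) (hp : p ≤ 1 / 2) (hmn : m < n)
    (hm4 : 4 ≤ (m : ℝ)) (hL : 300 ≤ Real.log m)
    (hL2 : Real.log m ^ 2 ≤ Real.exp (-12) / 24 * m)
    (hK : m / 2 * Real.binEntropy p ≤ Real.log n - 9) (A : Est n m) :
    success p A ≤ 199 / 200 := by
  have hm4' : 4 ≤ m := by exact_mod_cast hm4
  by_cases hI : Real.log m + 3 ≤ p * (1 - p) * (m - 2 : ℕ) / 3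
  · have := caseI h0 hp (by omega) hmn.le hI hK A
    linarith
  push Not at hI
  have hcast : ((m - 2 : ℕ) : ℝ) = m - 2 := by
    rw [Nat.cast_sub (by omega)]; norm_num
  rw [hcast] at hI
  obtain ⟨L, hLd⟩ : ∃ L : ℝ, L = Real.log m := ⟨_, rfl⟩
  obtain ⟨ε, hε⟩ : ∃ ε : ℝ, ε = Real.exp (-12) := ⟨_, rfl⟩
  obtain ⟨M, hMd⟩ : ∃ M : ℝ, M = m := ⟨_, rfl⟩
  have hε0 : 0 < ε := by rw [hε]; exact Real.exp_pos _
  have hε1 : ε ≤ 1 / 4 := by rw [hε]; exact exp12
  rw [← hLd] at hI hL hL2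
  rw [← hMd] at hI hm4 hL2
  rw [← hε] at hL2
  have hM2 : 0 < M - 2 := by linarith
  have hq : 1 / 2 ≤ 1 - p := by linarith
  have hLL : 300 * L ≤ L ^ 2 := by nlinarith
  have h1 : p * (M - 2) < 6 * (L + 3) := by
    have h2 : p * (M - 2) * (1 / 2) ≤ p * (M - 2) * (1 - p) :=
      mul_le_mul_of_nonneg_left hq (by positivity)
    linarith [h2, hI, (by ring : p * (M - 2) * (1 - p) = p * (1 - p) * (M - 2))]
  have hεM : 0 < ε * M := by positivity
  have h2 : 6 * (L + 3) ≤ ε * (M - 2) := by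
    have h3 : ε * (M - 2) ≥ ε * M / 2 := by nlinarith
    have h4 : 6 * (L + 3) ≤ L ^ 2 := by linarith
    linarith
  have h3 : p ≤ ε := by
    by_contra hc
    push Not at hc
    have := mul_lt_mul_of_pos_right hc hM2
    linarith
  have hps : p ≤ Real.exp (-12) := by rw [← hε]; exact h3
  obtain ⟨hp4, _⟩ := small_facts h0 hps
  have h5 : p * (M - 2) * (3999 / 4000) ≤ p * (M - 2) * (1 - p) :=
    mul_le_mul_of_nonneg_left (by linarith) (by positivity)
  have h6 : p * (M - 2) * (1 - p) < 3 * (L + 3) := by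
    linarith [hI, (by ring : p * (M - 2) * (1 - p) = p * (1 - p) * (M - 2))]
  have h7 : p * (M - 2) ≤ 3001 / 1000 * (L + 3) := by linarith
  have h8 : M * p ≤ 305 / 100 * L := by
    have : M * p = p * (M - 2) + 2 * p := by ring
    rw [this]
    linarith
  have h9 : 40 * (L * (L + 3)) ≤ M - 2 := by
    have h10 : 40 * (L * (L + 3)) ≤ 41 * L ^ 2 := by nlinarith
    have h11 : ε * M ≤ 1 / 4 * M := mul_le_mul_of_nonneg_right hε1 (by linarith)
    linarith
  have h10 : M * p * p ≤ 1 / 2 := by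
    have h11 : M * p * (p * (M - 2)) ≤ 305 / 100 * L * (6 * (L + 3)) :=
      mul_le_mul h8 h1.le (by positivity) (by positivity)
    by_contra hc
    push Not at hc
    have h12 := mul_lt_mul_of_pos_right hc hM2
    linarith [h9, (by ring : M * p * (p * (M - 2)) = M * p * p * (M - 2)),
      (by ring : 305 / 100 * L * (6 * (L + 3)) = 1830 / 100 * (L * (L + 3)))]
  have h13 : 20 * L ^ 2 ≤ M := by
    have h11 : ε * M ≤ 1 / 4 * M := mul_le_mul_of_nonneg_right hε1 (by linarith)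
    linarith
  rw [hMd] at h8 h10 h13
  rw [hLd] at h8 h13 hL
  exact caseII h0 hp (by omega) hmn (by linarith) h13 hps h8 h10 hK A

/-- The case `p ≤ 1/2`. -/
theorem low_half : ∃ N0 : ℕ, ∀ n m : ℕ, N0 ≤ n → 1 ≤ m → m < n → ∀ p : ℝ, 0 < p → p ≤ 1 / 2 →
    m / 2 * Real.binEntropy p ≤ Real.log n - 9 → ∀ A : Est n m, success p A ≤ 199 / 200 := by
  obtain ⟨M0, hM0⟩ := exists_M0
  refine ⟨2 ^ M0 + M0, fun n m hn hm hmn p h0 hp hK A => ?_⟩
  by_cases hmM : M0 ≤ m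
  · obtain ⟨h4, hL, hL2⟩ := hM0 m hmM
    exact large_case h0 hp hmn h4 hL hL2 hK A
  · push Not at hmM
    have h1 : 2 ^ m ≤ 2 ^ M0 := Nat.pow_le_pow_right (by norm_num) hmM.le
    have h2 : 2 ^ m ≤ n - m := by omega
    have h3 : (2 : ℝ) ^ (m - 1) * 2 = 2 ^ m := by
      rw [← pow_succ]; congr 1; omega
    have h4 : (2 : ℝ) ^ m ≤ ((n - m : ℕ) : ℝ) := by exact_mod_cast h2
    have h5 : (2 : ℝ) ^ (m - 1) / ((n - m : ℕ) + 1 : ℝ) ≤ 1 / 2 := by
      rw [div_le_iff₀ (by positivity)]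
      linarith
    have := caseSmall h0.le (by linarith) hm hmn h5 A
    linarith

/-- Complementation. -/
def cpl {V : Type*} (x : Gr V) : Gr V := fun e => !x e

lemma cpl_cpl {V : Type*} (x : Gr V) : cpl (cpl x) = x := by
  funext e; simp [cpl]

lemma pull_cpl {V W : Type*} (f : V ↪ W) (x : Gr W) : pull f (cpl x) = cpl (pull f x) := rfl

lemma wt_cpl {V : Type*} [Fintype (Edg V)] (p : ℝ) (x : Gr V) : wt p (cpl x) = wt (1 - p) x := by
  unfold wt
  refine Finset.prod_congr rfl fun e _ => ?_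
  show bit p (!x e) = bit (1 - p) (x e)
  cases x e <;> simp [bit]

/-- The complemented estimator. -/
def Est.cpl (A : Est n m) : Est n m where
  pr x y T := A.pr (Pair.cpl x) (Pair.cpl y) T
  nonneg x y T := A.nonneg _ _ T
  total x y := A.total _ _

lemma success_cpl (p : ℝ) (A : Est n m) : success p A = success (1 - p) A.cpl := by
  unfold success Ex
  have hinv : Function.Involutive (cpl (V := Fin n)) := cpl_cpl
  rw [← Equiv.sum_comp (hinv.toPerm)]
  refine Finset.sum_congr rfl fun x _ => ?_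
  show wt p (cpl x) * _ = _
  rw [wt_cpl]
  rfl

/-- All `p`. -/
theorem both_halves : ∃ N0 : ℕ, ∀ n m : ℕ, N0 ≤ n → 1 ≤ m → m < n → ∀ p : ℝ, 0 < p → p < 1 →
    m / 2 * Real.binEntropy p ≤ Real.log n - 9 → ∀ A : Est n m, success p A ≤ 199 / 200 := by
  obtain ⟨N0, h⟩ := low_half
  refine ⟨N0, fun n m hn hm hmn p h0 h1 hK A => ?_⟩
  by_cases hp : p ≤ 1 / 2
  · exact h n m hn hm hmn p h0 hp hK A
  · push Not at hp
    rw [success_cpl]
    refine h n m hn hm hmn (1 - p) (by linarith) (by linarith) ?_ _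
    rw [Real.binEntropy_one_sub]
    exact hK

end Pool.Agent.Q211.Pair
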