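import Pool.Agent.Q211.Pair.Deg

open Finset

namespace Pool.Agent.Q211.Pair

variable {m : ℕ}

/-- A large set moved off itself. -/
lemma exists_off {X : Type*} [Fintype X] [DecidableEq X] (τ : X → X) (hτ : Function.Injective τ)
    (Y : Finset X) (hY : ∀ y ∈ Y, τ y ≠ y) :
    ∃ A ⊆ Y, (∀ a ∈ A, τ a ∉ A) ∧ Y.card ≤ 3 * A.card := by
  classical
  have hne : (Y.powerset.filter fun A => ∀ a ∈ A, τ a ∉ A).Nonempty :=
    ⟨∅, Finset.mem_filter.2 ⟨Finset.empty_mem_powerset _, fun a ha => absurd ha (by simp)⟩⟩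
  obtain ⟨A, hA, hmax⟩ := Finset.exists_max_image _ Finset.card hne
  have hA' := Finset.mem_filter.1 hA
  have hAY : A ⊆ Y := Finset.mem_powerset.1 hA'.1
  refine ⟨A, hAY, hA'.2, ?_⟩
  have hcov : Y ⊆ A ∪ (A.image τ ∪ univ.filter fun y => τ y ∈ A) := by
    intro y hy
    by_contra hc
    simp only [Finset.mem_union, not_or, Finset.mem_filter, Finset.mem_univ, true_and] at hc
    obtain ⟨h1, h2, h3⟩ := hc
    have hins : insert y A ∈ Y.powerset.filter fun A => ∀ a ∈ A, τ a ∉ A := by
      refine Finset.mem_filter.2 ⟨Finset.mem_powerset.2 (Finset.insert_subset hy hAY), ?_⟩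
      intro a ha hta
      rcases Finset.mem_insert.1 ha with rfl | ha
      · rcases Finset.mem_insert.1 hta with h | h
        · exact hY _ hy h
        · exact h3 h
      · rcases Finset.mem_insert.1 hta with h | h
        · exact h2 (Finset.mem_image.2 ⟨a, ha, h⟩)
        · exact hA'.2 a ha h
    have := hmax _ hins
    rw [Finset.card_insert_of_notMem h1] at this
    omega
  have h1 := Finset.card_le_card hcov
  have h2 : (A.image τ).card ≤ A.card := Finset.card_image_le
  have h3 : (univ.filter fun y => τ y ∈ A).card ≤ A.card :=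
    Finset.card_le_card_of_injOn τ (fun y hy => (Finset.mem_filter.1 (Finset.mem_coe.1 hy)).2)
      (hτ.injOn)
  have h4 := Finset.card_union_le A (A.image τ ∪ univ.filter fun y => τ y ∈ A)
  have h5 := Finset.card_union_le (A.image τ) (univ.filter fun y => τ y ∈ A)
  omega

open Classical in
/-- Probability that a configuration is invariant on a moved set. -/
lemma Ex_inv {X : Type*} [Fintype X] [DecidableEq X] {p : ℝ} (h0 : 0 ≤ p) (h1 : p ≤ 1)
    (τ : X → X) (hτ : Function.Injective τ) (A : Finset X) (hA : ∀ a ∈ A, τ a ∉ A) :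
    Ex p (fun y : X → Bool => if ∀ e, y (τ e) = y e then (1 : ℝ) else 0) ≤
      (p ^ 2 + (1 - p) ^ 2) ^ A.card := by
  set g : A ⊕ A → X := fun s => Sum.elim (fun a => a.1) (fun a => τ a.1) s with hg
  have hinj : Function.Injective g := by
    intro s t h
    rcases s with a | a <;> rcases t with b | b
    · congr 1; exact Subtype.ext h
    · exfalso
      have h' : a.1 = τ b.1 := h
      exact hA b.1 b.2 (h' ▸ a.2)
    · exfalso
      have h' : τ a.1 = b.1 := h
      exact hA a.1 a.2 (h'.symm ▸ b.2)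
    · congr 1; exact Subtype.ext (hτ h)
  have hle : ∀ y : X → Bool, (if ∀ e, y (τ e) = y e then (1 : ℝ) else 0) ≤
      (fun v : A ⊕ A → Bool => (fun (u w : A → Bool) => ∏ a, (if w a = u a then (1 : ℝ) else 0))
        (fun a => v (.inl a)) (fun a => v (.inr a))) (fun s => y (g s)) := by
    intro y
    by_cases h : ∀ e, y (τ e) = y e
    · rw [if_pos h]
      refine le_of_eq (Finset.prod_eq_one fun a _ => ?_).symm
      exact if_pos (h a.1)
    · rw [if_neg h]
      exact Finset.prod_nonneg fun a _ => by split_ifs <;> norm_num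
  refine (Ex_mono h0 h1 hle).trans (le_of_eq ?_)
  refine (Ex_marg p g hinj (fun v : A ⊕ A → Bool =>
    (fun (u w : A → Bool) => ∏ a, (if w a = u a then (1 : ℝ) else 0))
        (fun a => v (.inl a)) (fun a => v (.inr a)))).trans ?_
  refine (Ex_sumType p (fun (u w : A → Bool) =>
    ∏ a, (if w a = u a then (1 : ℝ) else 0))).trans ?_
  have h2 : ∀ u : A → Bool, Ex p (fun w : A → Bool => ∏ a, (if w a = u a then (1 : ℝ) else 0)) =
      ∏ a, bit p (u a) := by
    intro u
    rw [Ex_prod p (fun a b => if b = u a then (1 : ℝ) else 0)]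
    refine Finset.prod_congr rfl fun a _ => ?_
    cases u a <;> simp [bit]
  simp only [h2]
  rw [Ex_prod p (fun _ b => bit p b), Finset.prod_const, Finset.card_univ, Fintype.card_coe]
  congr 1
  simp [bit]
  ring

/-- Moved pairs. -/
def mv (σ : Equiv.Perm (Fin m)) : Finset (Edg (Fin m)) :=
  univ.filter fun e => em σ.toEmbedding e ≠ e

lemma card_mv (σ : Equiv.Perm (Fin m)) : σ.support.card * (m - 2) ≤ 2 * (mv σ).card := by
  classical
  set O := σ.support.sigma (fun a => ((univ : Finset (Fin m)).erase a).erase (σ a)) with hO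
  have hcard : O.card = σ.support.card * (m - 2) := by
    rw [hO, Finset.card_sigma]
    rw [Finset.sum_congr rfl (g := fun _ => m - 2), Finset.sum_const, smul_eq_mul]
    intro a ha
    have hne : σ a ≠ a := Equiv.Perm.mem_support.1 ha
    rw [Finset.card_erase_of_mem (Finset.mem_erase.2 ⟨hne, Finset.mem_univ _⟩),
      Finset.card_erase_of_mem (Finset.mem_univ a), Finset.card_univ, Fintype.card_fin]
    omega
  have hdist : ∀ o ∈ O, o.1 ≠ o.2 := by
    intro o ho h
    have := (Finset.mem_sigma.1 ho).2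
    rw [Finset.mem_erase, Finset.mem_erase] at this
    exact this.2.1 h.symm
  rw [← hcard]
  let F : (Σ _ : Fin m, Fin m) → Sym2 (Fin m) := fun o => s(o.1, o.2)
  have hmaps : ∀ o ∈ O, F o ∈ (mv σ).map (Function.Embedding.subtype _) := by
    intro o ho
    have h1 := Finset.mem_sigma.1 ho
    have h2 := h1.2
    rw [Finset.mem_erase, Finset.mem_erase] at h2
    refine Finset.mem_map.2 ⟨mkE o.1 o.2 (hdist o ho), ?_, rfl⟩
    refine Finset.mem_filter.2 ⟨Finset.mem_univ _, ?_⟩
    intro h
    have h3 : s(σ o.1, σ o.2) = s(o.1, o.2) := congrArg Subtype.val h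
    rcases Sym2.eq_iff.1 h3 with ⟨h4, _⟩ | ⟨h4, _⟩
    · exact (Equiv.Perm.mem_support.1 h1.1) h4
    · exact h2.1 h4.symm
  have := Finset.card_le_mul_card_image_of_maps_to hmaps 2 (by
    intro e _
    induction e using Sym2.ind with
    | _ a b =>
      have hsub : (O.filter fun o => F o = s(a, b)) ⊆ {⟨a, b⟩, ⟨b, a⟩} := by
        intro o ho
        have h1 := (Finset.mem_filter.1 ho).2
        rcases Sym2.eq_iff.1 h1 with ⟨h2, h3⟩ | ⟨h2, h3⟩
        · rw [Finset.mem_insert]; left
          rcases o with ⟨x, y⟩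
          simp only at h2 h3
          rw [h2, h3]
        · rw [Finset.mem_insert, Finset.mem_singleton]; right
          rcases o with ⟨x, y⟩
          simp only at h2 h3
          rw [h2, h3]
      exact (Finset.card_le_card hsub).trans Finset.card_le_two)
  rwa [Finset.card_map] at this

open Classical in
lemma Ex_aut {p : ℝ} (h0 : 0 ≤ p) (h1 : p ≤ 1) (σ : Equiv.Perm (Fin m)) :
    Ex p (fun y : Gr (Fin m) => if pull σ.toEmbedding y = y then (1 : ℝ) else 0) ≤
      Real.exp (-(p * (1 - p) * (m - 2 : ℕ) / 3)) ^ σ.support.card := by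
  obtain ⟨A, hAY, hA, hcard⟩ := exists_off (em σ.toEmbedding) (em_inj _) (mv σ)
    (fun y hy => (Finset.mem_filter.1 hy).2)
  have h2 : (fun y : Gr (Fin m) => if pull σ.toEmbedding y = y then (1 : ℝ) else 0) =
      fun y => if ∀ e, y (em σ.toEmbedding e) = y e then (1 : ℝ) else 0 := by
    funext y
    have : (pull σ.toEmbedding y = y) ↔ ∀ e, y (em σ.toEmbedding e) = y e :=
      ⟨fun h e => congrFun h e, fun h => funext h⟩
    simp only [this]
  rw [h2]
  refine (Ex_inv h0 h1 _ (em_inj _) A hA).trans ?_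
  have hk := card_mv σ
  have h3 : p ^ 2 + (1 - p) ^ 2 ≤ Real.exp (-(2 * (p * (1 - p)))) := by
    have := Real.add_one_le_exp (-(2 * (p * (1 - p))))
    nlinarith
  refine (pow_le_pow_left₀ (by positivity) h3 _).trans ?_
  rw [← Real.exp_nat_mul, ← Real.exp_nat_mul, Real.exp_le_exp]
  have h4 : ((σ.support.card * (m - 2 : ℕ) : ℕ) : ℝ) ≤ ((6 * A.card : ℕ) : ℝ) := by
    exact_mod_cast (by omega : σ.support.card * (m - 2) ≤ 6 * A.card)
  push_cast at h4
  have h5 : 0 ≤ p * (1 - p) := mul_nonneg h0 (by linarith)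
  have h6 := mul_le_mul_of_nonneg_left h4 h5
  push_cast
  linarith

/-- The union bound over nontrivial permutations. -/
lemma sum_perm {θ : ℝ} (h0 : 0 ≤ θ) (hθ : m * θ ≤ 1 / 2) :
    ∑ σ ∈ (univ : Finset (Equiv.Perm (Fin m))).erase 1, θ ^ σ.support.card ≤ 2 * (m * θ) := by
  classical
  have hfib : ∑ σ ∈ (univ : Finset (Equiv.Perm (Fin m))).erase 1, θ ^ σ.support.card =
      ∑ T ∈ (univ : Finset (Fin m)).powerset,
        ∑ σ ∈ ((univ : Finset (Equiv.Perm (Fin m))).erase 1).filter (fun σ => σ.support = T),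
          θ ^ σ.support.card :=
    (Finset.sum_fiberwise_of_maps_to (fun σ _ => Finset.mem_powerset.2
      (Finset.subset_univ _)) _).symm
  rw [hfib]
  have hT : ∀ T ∈ (univ : Finset (Fin m)).powerset,
      ∑ σ ∈ ((univ : Finset (Equiv.Perm (Fin m))).erase 1).filter (fun σ => σ.support = T),
          θ ^ σ.support.card ≤
      (fun k : ℕ => if k = 0 then (0 : ℝ) else (k.factorial : ℝ) * θ ^ k) T.card := by
    intro T _
    by_cases hT0 : T.card = 0
    · have hTe : T = ∅ := Finset.card_eq_zero.1 hT0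
      subst hTe
      simp only [Finset.card_empty, if_true]
      refine le_of_eq (Finset.sum_eq_zero fun σ hσ => ?_)
      exfalso
      have h1 := Finset.mem_filter.1 hσ
      exact (Finset.mem_erase.1 h1.1).1 (Equiv.Perm.support_eq_empty_iff.1 h1.2)
    · simp only [hT0, if_false]
      have hc : (((univ : Finset (Equiv.Perm (Fin m))).erase 1).filter
          (fun σ => σ.support = T)).card ≤ T.card.factorial := by
        have h1 : (((univ : Finset (Equiv.Perm (Fin m))).erase 1).filter
            (fun σ => σ.support = T)).card ≤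
            (univ.filter fun f : Equiv.Perm (Fin m) => ∀ a, ¬ a ∈ T → f a = a).card := by
          refine Finset.card_le_card fun σ hσ => ?_
          have h2 := (Finset.mem_filter.1 hσ).2
          refine Finset.mem_filter.2 ⟨Finset.mem_univ _, fun a ha => ?_⟩
          rw [← h2] at ha
          exact Equiv.Perm.notMem_support.1 ha
        refine h1.trans (le_of_eq ?_)
        rw [← Fintype.card_subtype, ← Fintype.card_congr
          (Equiv.Perm.subtypeEquivSubtypePerm (fun a => a ∈ T)), Fintype.card_perm,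
          Fintype.card_coe]
      calc _ = ∑ σ ∈ ((univ : Finset (Equiv.Perm (Fin m))).erase 1).filter
            (fun σ => σ.support = T), θ ^ T.card :=
            Finset.sum_congr rfl fun σ hσ => by rw [(Finset.mem_filter.1 hσ).2]
        _ = _ := by rw [Finset.sum_const, nsmul_eq_mul]
        _ ≤ _ := mul_le_mul_of_nonneg_right (by exact_mod_cast hc) (pow_nonneg h0 _)
  refine (Finset.sum_le_sum hT).trans ?_
  refine (Finset.sum_powerset_apply_card (x := (univ : Finset (Fin m)))
    (fun k : ℕ => if k = 0 then (0 : ℝ) else (k.factorial : ℝ) * θ ^ k)).le.trans ?_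
  rw [Finset.card_univ, Fintype.card_fin, Finset.sum_range_succ']
  simp only [Nat.choose_zero_right, if_true, smul_zero, add_zero, Nat.succ_ne_zero,
    if_false]
  have hterm : ∀ k ∈ Finset.range m, m.choose (k + 1) • (((k + 1).factorial : ℝ) * θ ^ (k + 1)) ≤
      (m * θ) * (1 / 2) ^ k := by
    intro k _
    rw [nsmul_eq_mul, ← mul_assoc]
    have h1 : ((m.choose (k + 1) : ℝ) * ((k + 1).factorial : ℝ)) ≤ (m : ℝ) ^ (k + 1) := by
      have h2 := Nat.descFactorial_le_pow m (k + 1)
      rw [Nat.descFactorial_eq_factorial_mul_choose] at h2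
      have h3 : (((k + 1).factorial * m.choose (k + 1) : ℕ) : ℝ) ≤ ((m ^ (k + 1) : ℕ) : ℝ) := by
        exact_mod_cast h2
      push_cast at h3
      linarith
    calc ((m.choose (k + 1) : ℝ) * ((k + 1).factorial : ℝ)) * θ ^ (k + 1) ≤
        (m : ℝ) ^ (k + 1) * θ ^ (k + 1) := mul_le_mul_of_nonneg_right h1 (pow_nonneg h0 _)
      _ = (m * θ) * (m * θ) ^ k := by rw [← mul_pow, pow_succ']
      _ ≤ (m * θ) * (1 / 2) ^ k := mul_le_mul_of_nonneg_left
          (pow_le_pow_left₀ (by positivity) hθ k) (by positivity)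
  refine (Finset.sum_le_sum hterm).trans ?_
  rw [← Finset.mul_sum]
  have hgeo : ∑ k ∈ Finset.range m, (1 / 2 : ℝ) ^ k ≤ 2 := by
    have := geom_sum_eq (by norm_num : (1 / 2 : ℝ) ≠ 1) m
    rw [this]
    have h3 : (0 : ℝ) ≤ (1 / 2) ^ m := by positivity
    rw [div_le_iff_of_neg (by norm_num)]
    linarith
  calc (m * θ) * ∑ k ∈ Finset.range m, (1 / 2 : ℝ) ^ k ≤ (m * θ) * 2 :=
        mul_le_mul_of_nonneg_left hgeo (by positivity)
    _ = _ := by ring

open Classical in
/-- Few automorphisms. -/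
theorem Ex_asym {p : ℝ} (h0 : 0 ≤ p) (h1 : p ≤ 1)
    (hθ : m * Real.exp (-(p * (1 - p) * (m - 2 : ℕ) / 3)) ≤ 1 / 2) :
    Ex p (fun y : Gr (Fin m) => if (aut y).card ≤ 1 then (0 : ℝ) else 1) ≤
      2 * (m * Real.exp (-(p * (1 - p) * (m - 2 : ℕ) / 3))) := by
  have hle : ∀ y : Gr (Fin m), (if (aut y).card ≤ 1 then (0 : ℝ) else 1) ≤
      ∑ σ ∈ (univ : Finset (Equiv.Perm (Fin m))).erase 1,
        (if pull σ.toEmbedding y = y then (1 : ℝ) else 0) := by
    intro y
    have hnn : ∀ σ ∈ (univ : Finset (Equiv.Perm (Fin m))).erase 1,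
        0 ≤ (if pull σ.toEmbedding y = y then (1 : ℝ) else 0) := fun σ _ => by
      split_ifs <;> norm_num
    by_cases h : (aut y).card ≤ 1
    · rw [if_pos h]; exact Finset.sum_nonneg hnn
    · rw [if_neg h]
      push Not at h
      obtain ⟨σ, hσ, τ, hτ, hne⟩ := Finset.one_lt_card.1 h
      have : ∃ ρ ∈ (univ : Finset (Equiv.Perm (Fin m))).erase 1, pull ρ.toEmbedding y = y := by
        by_cases h1 : σ = 1
        · refine ⟨τ, Finset.mem_erase.2 ⟨fun h2 => hne (h1.trans h2.symm), Finset.mem_univ _⟩,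
            (Finset.mem_filter.1 hτ).2⟩
        · exact ⟨σ, Finset.mem_erase.2 ⟨h1, Finset.mem_univ _⟩, (Finset.mem_filter.1 hσ).2⟩
      obtain ⟨ρ, hρ, hρ'⟩ := this
      refine le_trans ?_ (Finset.single_le_sum hnn hρ)
      rw [if_pos hρ']
  refine (Ex_mono h0 h1 hle).trans ?_
  rw [Ex_sum]
  refine (Finset.sum_le_sum fun σ _ => Ex_aut h0 h1 σ).trans ?_
  exact sum_perm (Real.exp_pos _).le hθ

end Pool.Agent.Q211.Pair
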