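import Mathlib

open Finset

namespace Pool.Agent.Q211.Pair

/-- The unordered pairs of distinct elements. -/
abbrev Edg (V : Type*) := {e : Sym2 V // ¬ e.IsDiag}

/-- A graph on `V`, given by its edge indicator. -/
abbrev Gr (V : Type*) := Edg V → Bool

/-- The map induced on pairs by an injection. -/
def em {V W : Type*} (f : V ↪ W) : Edg V → Edg W :=
  fun e => ⟨Sym2.map f e.1, fun h => e.2 ((Sym2.isDiag_map f.injective).1 h)⟩

/-- The relabelled induced subgraph. -/
def pull {V W : Type*} (f : V ↪ W) (x : Gr W) : Gr V := fun e => x (em f e)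

lemma em_inj {V W : Type*} (f : V ↪ W) : Function.Injective (em f) := by
  intro a b h
  have h1 : Sym2.map f a.1 = Sym2.map f b.1 := congrArg Subtype.val h
  exact Subtype.ext (Sym2.map.injective f.injective h1)

/-- The law of one bit. -/
def bit (p : ℝ) (b : Bool) : ℝ := if b then p else 1 - p

/-- The product weight. -/
noncomputable def wt {J : Type*} [Fintype J] (p : ℝ) (x : J → Bool) : ℝ := ∏ j, bit p (x j)

/-- Expectation for independent bits. -/
noncomputable def Ex {J : Type*} [Fintype J] [DecidableEq J] (p : ℝ) (F : (J → Bool) → ℝ) : ℝ :=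
  ∑ x, wt p x * F x

lemma bit_nonneg {p : ℝ} (h0 : 0 ≤ p) (h1 : p ≤ 1) (b : Bool) : 0 ≤ bit p b := by
  cases b <;> simp [bit] <;> linarith

lemma wt_nonneg {J : Type*} [Fintype J] {p : ℝ} (h0 : 0 ≤ p) (h1 : p ≤ 1) (x : J → Bool) :
    0 ≤ wt p x := Finset.prod_nonneg fun _ _ => bit_nonneg h0 h1 _

section ex
variable {J : Type*} [Fintype J] [DecidableEq J] {p : ℝ}

lemma Ex_prod (p : ℝ) (h : J → Bool → ℝ) :
    Ex p (fun x => ∏ j, h j (x j)) = ∏ j, (p * h j true + (1 - p) * h j false) := by
  have h1 : ∀ j, p * h j true + (1 - p) * h j false = ∑ b : Bool, bit p b * h j b := by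
    intro j; simp [bit]
  simp only [h1]
  rw [Finset.prod_univ_sum]
  simp only [Fintype.piFinset_univ, Ex, wt]
  refine Finset.sum_congr rfl fun x _ => ?_
  rw [← Finset.prod_mul_distrib]

lemma Ex_one (p : ℝ) : Ex (J := J) p (fun _ => 1) = 1 := by
  have := Ex_prod (J := J) p (fun _ _ => 1)
  simp only [Finset.prod_const_one, mul_one] at this
  rw [this]
  simp

lemma sum_wt (p : ℝ) : ∑ x : J → Bool, wt p x = 1 := by
  have := Ex_one (J := J) p
  simpa [Ex] using this

lemma Ex_const (p c : ℝ) : Ex (J := J) p (fun _ => c) = c := by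
  rw [Ex, ← Finset.sum_mul, sum_wt, one_mul]

lemma Ex_add (p : ℝ) (F G : (J → Bool) → ℝ) :
    Ex p (fun x => F x + G x) = Ex p F + Ex p G := by
  simp only [Ex, mul_add, Finset.sum_add_distrib]

lemma Ex_sub (p : ℝ) (F G : (J → Bool) → ℝ) :
    Ex p (fun x => F x - G x) = Ex p F - Ex p G := by
  simp only [Ex, mul_sub, Finset.sum_sub_distrib]

lemma Ex_mul_left (p c : ℝ) (F : (J → Bool) → ℝ) :
    Ex p (fun x => c * F x) = c * Ex p F := by
  simp only [Ex, Finset.mul_sum]
  exact Finset.sum_congr rfl fun x _ => by ring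

lemma Ex_sum {ι : Type*} (s : Finset ι) (p : ℝ) (F : ι → (J → Bool) → ℝ) :
    Ex p (fun x => ∑ i ∈ s, F i x) = ∑ i ∈ s, Ex p (F i) := by
  simp only [Ex, Finset.mul_sum]
  exact Finset.sum_comm

lemma Ex_mono (h0 : 0 ≤ p) (h1 : p ≤ 1) {F G : (J → Bool) → ℝ} (h : ∀ x, F x ≤ G x) :
    Ex p F ≤ Ex p G :=
  Finset.sum_le_sum fun x _ => mul_le_mul_of_nonneg_left (h x) (wt_nonneg h0 h1 x)

lemma Ex_nonneg (h0 : 0 ≤ p) (h1 : p ≤ 1) {F : (J → Bool) → ℝ} (h : ∀ x, 0 ≤ F x) :
    0 ≤ Ex p F :=
  Finset.sum_nonneg fun x _ => mul_nonneg (wt_nonneg h0 h1 x) (h x)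

/-- Marginals. -/
lemma Ex_marg {I : Type*} [Fintype I] [DecidableEq I] (p : ℝ) (g : I → J)
    (hg : Function.Injective g) (F : (I → Bool) → ℝ) :
    Ex p (fun x : J → Bool => F (fun i => x (g i))) = Ex p F := by
  classical
  have hkey : ∀ y : I → Bool, Ex p (fun x : J → Bool =>
      if (fun i => x (g i)) = y then (1 : ℝ) else 0) = wt p y := by
    intro y
    have h1 : (fun x : J → Bool => if (fun i => x (g i)) = y then (1 : ℝ) else 0) =
        fun x => ∏ j, (if ∀ i, g i = j → x j = y i then (1 : ℝ) else 0) := by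
      funext x
      by_cases h : (fun i => x (g i)) = y
      · rw [if_pos h]
        refine (Finset.prod_eq_one fun j _ => ?_).symm
        rw [if_pos]
        intro i hi
        rw [← hi]
        exact congrFun h i
      · rw [if_neg h]
        have : ∃ i, x (g i) ≠ y i := by
          by_contra hc
          push Not at hc
          exact h (funext hc)
        obtain ⟨i, hi⟩ := this
        refine (Finset.prod_eq_zero (Finset.mem_univ (g i)) ?_).symm
        rw [if_neg]
        intro hc
        exact hi (hc i rfl)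
    rw [h1, Ex_prod p (fun j b => if ∀ i, g i = j → b = y i then (1 : ℝ) else 0)]
    have h2 : ∀ j, (p * (if ∀ i, g i = j → true = y i then (1 : ℝ) else 0) +
        (1 - p) * (if ∀ i, g i = j → false = y i then (1 : ℝ) else 0)) =
        if j ∈ Finset.univ.image g then
          (p * (if ∀ i, g i = j → true = y i then (1 : ℝ) else 0) +
          (1 - p) * (if ∀ i, g i = j → false = y i then (1 : ℝ) else 0)) else 1 := by
      intro j
      by_cases hj : j ∈ Finset.univ.image g
      · rw [if_pos hj]
      · rw [if_neg hj]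
        have hn : ∀ i, g i ≠ j := by
          intro i hi
          exact hj (Finset.mem_image.2 ⟨i, Finset.mem_univ _, hi⟩)
        rw [if_pos (fun i hi => absurd hi (hn i)), if_pos (fun i hi => absurd hi (hn i))]
        ring
    rw [Finset.prod_congr rfl fun j _ => h2 j, Finset.prod_ite_mem, Finset.univ_inter,
      Finset.prod_image (fun a _ b _ h => hg h)]
    refine Finset.prod_congr rfl fun i _ => ?_
    have h3 : ∀ b : Bool, (∀ i', g i' = g i → b = y i') ↔ b = y i := fun b =>
      ⟨fun h => h i rfl, fun h i' hi' => by rw [hg hi']; exact h⟩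
    simp only [h3]
    cases hy : y i <;> simp [bit]
  have h4 : (fun x : J → Bool => F (fun i => x (g i))) = fun x =>
      ∑ y : I → Bool, F y * (if (fun i => x (g i)) = y then (1 : ℝ) else 0) := by
    funext x
    simp
  rw [h4, Ex_sum]
  rw [Ex]
  refine Finset.sum_congr rfl fun y _ => ?_
  rw [Ex_mul_left, hkey]
  ring

end ex

/-- Independence of two families. -/
lemma Ex_sumType {I J : Type*} [Fintype I] [DecidableEq I] [Fintype J] [DecidableEq J] (p : ℝ)
    (F : (I → Bool) → (J → Bool) → ℝ) :
    Ex p (fun x : I ⊕ J → Bool => F (fun i => x (Sum.inl i)) (fun j => x (Sum.inr j))) =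
      Ex p (fun y => Ex p (F y)) := by
  classical
  simp only [Ex]
  rw [← (Equiv.sumArrowEquivProdArrow I J Bool).symm.sum_comp, Fintype.sum_prod_type]
  refine Finset.sum_congr rfl fun y _ => ?_
  rw [Finset.mul_sum]
  refine Finset.sum_congr rfl fun z _ => ?_
  have : wt p ((Equiv.sumArrowEquivProdArrow I J Bool).symm (y, z)) = wt p y * wt p z := by
    rw [wt, Fintype.prod_sum_type]
    rfl
  rw [this]
  simp only [Equiv.sumArrowEquivProdArrow_symm_apply_inl,
    Equiv.sumArrowEquivProdArrow_symm_apply_inr]
  ring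

/-- Independence of rows. -/
lemma Ex_rows {I J : Type*} [Fintype I] [DecidableEq I] [Fintype J] [DecidableEq J] (p : ℝ)
    (F : I → (J → Bool) → ℝ) :
    Ex p (fun x : I × J → Bool => ∏ i, F i (fun j => x (i, j))) = ∏ i, Ex p (F i) := by
  classical
  simp only [Ex]
  rw [Finset.prod_univ_sum, Fintype.piFinset_univ, ← (Equiv.curry I J Bool).symm.sum_comp]
  refine Finset.sum_congr rfl fun y _ => ?_
  have : wt p ((Equiv.curry I J Bool).symm y) = ∏ i, wt p (y i) := by
    rw [wt, Fintype.prod_prod_type]
    rfl
  rw [this, ← Finset.prod_mul_distrib]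
  rfl

/-- The law of the number of ones. -/
lemma Ex_count {J : Type*} [Fintype J] [DecidableEq J] (p : ℝ) (k : ℕ) :
    Ex p (fun x : J → Bool => if (univ.filter fun j => x j = true).card = k then (1 : ℝ) else 0) =
      (Fintype.card J).choose k * p ^ k * (1 - p) ^ (Fintype.card J - k) := by
  classical
  have hw : ∀ x : J → Bool, wt p x = p ^ (univ.filter fun j => x j = true).card *
      (1 - p) ^ (Fintype.card J - (univ.filter fun j => x j = true).card) := by
    intro x
    rw [wt]
    have h1 : ∀ j, bit p (x j) = if x j = true then p else 1 - p := fun j => by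
      cases h : x j <;> simp [bit]
    simp only [h1]
    rw [Finset.prod_ite, Finset.prod_const, Finset.prod_const]
    congr 2
    rw [Finset.filter_not, Finset.card_sdiff_of_subset (Finset.filter_subset _ _),
      Finset.card_univ]
  rw [Ex]
  have h2 : ∀ x : J → Bool, wt p x *
      (if (univ.filter fun j => x j = true).card = k then (1 : ℝ) else 0) =
      if (univ.filter fun j => x j = true).card = k then
        p ^ k * (1 - p) ^ (Fintype.card J - k) else 0 := by
    intro x
    split_ifs with h
    · rw [hw, h, mul_one]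
    · rw [mul_zero]
  rw [Finset.sum_congr rfl fun x _ => h2 x, ← Finset.sum_filter, Finset.sum_const, nsmul_eq_mul,
    mul_assoc]
  congr 1
  have h3 : (univ.filter fun x : J → Bool => (univ.filter fun j => x j = true).card = k).card =
      (Finset.powersetCard k (univ : Finset J)).card := by
    refine Finset.card_bij (fun x _ => univ.filter fun j => x j = true) ?_ ?_ ?_
    · intro x hx
      rw [Finset.mem_powersetCard]
      exact ⟨Finset.subset_univ _, (Finset.mem_filter.1 hx).2⟩
    · intro x _ y _ h
      funext j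
      have := congrArg (fun s => j ∈ s) h
      simp only [Finset.mem_filter, Finset.mem_univ, true_and, eq_iff_iff] at this
      cases hx : x j <;> cases hy : y j <;> simp_all
    · intro s hs
      refine ⟨fun j => decide (j ∈ s), ?_, ?_⟩
      · rw [Finset.mem_filter]
        refine ⟨Finset.mem_univ _, ?_⟩
        have : (univ.filter fun j => decide (j ∈ s) = true) = s := by ext j; simp
        rw [this]
        exact (Finset.mem_powersetCard.1 hs).2
      · ext j; simp
  rw [h3, Finset.card_powersetCard, Finset.card_univ]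

end Pool.Agent.Q211.Pair
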