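import Pool.Agent.Q211.Pair.Aut

open Finset

namespace Pool.Agent.Q211.Pair

variable {n m : ℕ}

/-- Number of edges. -/
def nE {J : Type*} [Fintype J] (y : J → Bool) : ℕ := (univ.filter fun e => y e = true).card

lemma nE_le {J : Type*} [Fintype J] (y : J → Bool) : nE y ≤ Fintype.card J :=
  Finset.card_le_univ _

lemma wt_eq {J : Type*} [Fintype J] {p : ℝ} (h0 : 0 < p) (h1 : p < 1) (y : J → Bool) :
    wt p y = Real.exp (Fintype.card J * Real.log (1 - p) +
      nE y * (Real.log p - Real.log (1 - p))) := by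
  have h1' : 0 < 1 - p := by linarith
  have h2 : ∀ j, bit p (y j) = Real.exp (Real.log (1 - p) +
      (if y j = true then 1 else 0) * (Real.log p - Real.log (1 - p))) := by
    intro j
    cases h : y j
    · simp [bit, Real.exp_log h1']
    · simp [bit, Real.exp_log h0]
  rw [wt]
  simp only [h2]
  rw [← Real.exp_sum, Finset.sum_add_distrib, Finset.sum_const, ← Finset.sum_mul,
    Finset.card_univ, nsmul_eq_mul]
  congr 3
  rw [nE, Finset.card_filter]
  push_cast
  rfl

open Classical in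
lemma tail_le {J : Type*} [Fintype J] [DecidableEq J] {p : ℝ} (h0 : 0 ≤ p) (h1 : p ≤ 1)
    {δ : ℝ} (hδ : 0 < δ) (t : ℝ) :
    Ex p (fun y : J → Bool => if (nE y : ℝ) ≤ t then (0 : ℝ) else 1) ≤
      Real.exp (Fintype.card J * p * δ - t * Real.log (1 + δ)) := by
  have hle : ∀ y : J → Bool, (if (nE y : ℝ) ≤ t then (0 : ℝ) else 1) ≤
      Real.exp (-(t * Real.log (1 + δ))) * ∏ j, (if y j = true then (1 + δ) else 1) := by
    intro y
    have h2 : ∏ j, (if y j = true then (1 + δ) else 1) = Real.exp (nE y * Real.log (1 + δ)) := by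
      rw [Finset.prod_ite, Finset.prod_const, Finset.prod_const_one, mul_one, Real.exp_nat_mul,
        Real.exp_log (by linarith)]
      rfl
    rw [h2, ← Real.exp_add]
    split_ifs with h
    · exact (Real.exp_pos _).le
    · push Not at h
      have h3 : 0 < Real.log (1 + δ) := Real.log_pos (by linarith)
      refine Real.one_le_exp ?_
      have h4 := mul_pos (sub_pos.2 h) h3
      linarith
  refine (Ex_mono h0 h1 hle).trans ?_
  rw [Ex_mul_left, Ex_prod p (fun _ b => if b = true then (1 + δ) else 1)]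
  simp only [if_true, Bool.false_eq_true, if_false]
  rw [Finset.prod_const, Finset.card_univ]
  have h4 : p * (1 + δ) + (1 - p) * 1 ≤ Real.exp (p * δ) := by
    have := Real.add_one_le_exp (p * δ)
    linarith
  have h5 : 0 ≤ p * (1 + δ) + (1 - p) * 1 := by
    have : 0 ≤ p * δ := mul_nonneg h0 hδ.le
    linarith
  have h6 := pow_le_pow_left₀ h5 h4 (Fintype.card J)
  rw [← Real.exp_nat_mul] at h6
  calc Real.exp (-(t * Real.log (1 + δ))) * (p * (1 + δ) + (1 - p) * 1) ^ Fintype.card J ≤
      Real.exp (-(t * Real.log (1 + δ))) * Real.exp (Fintype.card J * (p * δ)) :=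
        mul_le_mul_of_nonneg_left h6 (Real.exp_pos _).le
    _ = _ := by rw [← Real.exp_add]; congr 1; ring

open Classical in
lemma tail_typ {J : Type*} [Fintype J] [DecidableEq J] {p : ℝ} (h0 : 0 ≤ p) (h1 : p ≤ 1)
    (hμ : 4 ≤ Fintype.card J * p) :
    Ex p (fun y : J → Bool => if (nE y : ℝ) ≤ Fintype.card J * p +
      3 * √(Fintype.card J * p) then (0 : ℝ) else 1) ≤ Real.exp (-2) := by
  set μ := (Fintype.card J : ℝ) * p with hμd
  set s := √μ with hs
  have hs2 : 2 ≤ s := by
    rw [hs]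
    have : (2 : ℝ) = √4 := by
      rw [show (4 : ℝ) = 2 ^ 2 by norm_num, Real.sqrt_sq (by norm_num)]
    rw [this]
    exact Real.sqrt_le_sqrt hμ
  have hsq : s ^ 2 = μ := Real.sq_sqrt (by linarith)
  have hs0 : 0 < s := by linarith
  refine (tail_le h0 h1 (δ := 1 / s) (by positivity) _).trans (Real.exp_le_exp.2 ?_)
  rw [← hμd]
  have hlog : 2 * (1 / s) / (1 / s + 2) ≤ Real.log (1 + 1 / s) :=
    Real.le_log_one_add_of_nonneg (by positivity)
  have h2 : (μ + 3 * s) * (2 * (1 / s) / (1 / s + 2)) ≤ (μ + 3 * s) * Real.log (1 + 1 / s) :=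
    mul_le_mul_of_nonneg_left hlog (by positivity)
  have h3 : (μ + 3 * s) * (2 * (1 / s) / (1 / s + 2)) = 2 * s * (s + 3) / (2 * s + 1) := by
    rw [← hsq]
    field_simp
    ring
  have h4 : μ * (1 / s) = s := by
    rw [← hsq]; field_simp
  rw [h4]
  rw [h3] at h2
  have h5 : s - 2 * s * (s + 3) / (2 * s + 1) ≤ -2 := by
    rw [sub_le_iff_le_add, ← sub_le_iff_le_add', le_div_iff₀ (by positivity)]
    nlinarith
  linarith

lemma desc_ge (m : ℕ) : ∀ n : ℕ, m ≤ n → (n : ℝ) ^ m ≤ Real.exp m * n.descFactorial m := by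
  induction m with
  | zero => intro n _; simp
  | succ m ih =>
    intro n hn
    rcases n with _ | n
    · omega
    have hmn : m ≤ n := by omega
    rw [Nat.succ_descFactorial_succ]
    have h1 := ih n hmn
    have h2 : ((n + 1 : ℕ) : ℝ) ^ m ≤ Real.exp 1 * (n : ℝ) ^ m := by
      rcases Nat.eq_zero_or_pos n with rfl | hn0
      · have : m = 0 := by omega
        subst this
        simp
      · have hn1 : (0 : ℝ) < n := by exact_mod_cast hn0
        have h3 : ((n + 1 : ℕ) : ℝ) = (1 + 1 / n) * n := by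
          push_cast; field_simp
        rw [h3, mul_pow]
        refine mul_le_mul_of_nonneg_right ?_ (by positivity)
        have h4 : 1 + 1 / (n : ℝ) ≤ Real.exp (1 / n) := by
          have := Real.add_one_le_exp (1 / (n : ℝ))
          linarith
        refine (pow_le_pow_left₀ (by positivity) h4 m).trans ?_
        rw [← Real.exp_nat_mul, Real.exp_le_exp]
        rw [mul_one_div, div_le_one hn1]
        exact_mod_cast hmn
    calc ((n + 1 : ℕ) : ℝ) ^ (m + 1) = ((n + 1 : ℕ) : ℝ) * ((n + 1 : ℕ) : ℝ) ^ m := pow_succ' _ _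
      _ ≤ ((n + 1 : ℕ) : ℝ) * (Real.exp 1 * (Real.exp m * n.descFactorial m)) := by
          refine mul_le_mul_of_nonneg_left (h2.trans ?_) (by positivity)
          exact mul_le_mul_of_nonneg_left h1 (Real.exp_pos _).le
      _ = (Real.exp 1 * Real.exp m) * (((n + 1 : ℕ) : ℝ) * n.descFactorial m) := by ring
      _ = _ := by
          rw [← Real.exp_add]
          push_cast
          congr 2
          ring

lemma sqrt_mul_log {p : ℝ} (h0 : 0 < p) : √p * -Real.log p ≤ 2 := by
  have hs : 0 < √p := Real.sqrt_pos.2 h0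
  have h1 : Real.log (√p)⁻¹ ≤ (√p)⁻¹ - 1 := Real.log_le_sub_one_of_pos (inv_pos.2 hs)
  rw [Real.log_inv] at h1
  have h2 : Real.log p = 2 * Real.log (√p) := by
    have : p = √p ^ 2 := (Real.sq_sqrt h0.le).symm
    conv_lhs => rw [this]
    rw [Real.log_pow]
    norm_num
  rw [h2]
  have h3 : √p * ((√p)⁻¹ - 1) = 1 - √p := by
    field_simp
  have h4 := mul_le_mul_of_nonneg_left h1 hs.le
  nlinarith

lemma card_Edg (m : ℕ) : (Fintype.card (Edg (Fin m)) : ℝ) = m * (m - 1) / 2 := by
  have h : Fintype.card (Edg (Fin m)) = m.choose 2 := by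
    have := Sym2.card_subtype_not_diag (α := Fin m)
    rw [Fintype.card_fin] at this
    rw [← this]
  rw [h, Nat.cast_choose_two]

open Classical in
/-- The dense regime: counting asymmetric typical graphs. -/
theorem caseI {p : ℝ} (h0 : 0 < p) (hp : p ≤ 1 / 2) (hm : 3 ≤ m) (hmn : m ≤ n)
    (hI : Real.log m + 3 ≤ p * (1 - p) * (m - 2 : ℕ) / 3)
    (hK : m / 2 * Real.binEntropy p ≤ Real.log n - 9) (A : Est n m) :
    success p A ≤ 1 / 2 := by
  have h1 : p < 1 := by linarith
  have hq : 0 < 1 - p := by linarith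
  have hm0 : (0 : ℝ) < m := by positivity
  have hm3 : (3 : ℝ) ≤ m := by exact_mod_cast hm
  have hn0 : (0 : ℝ) < n := lt_of_lt_of_le hm0 (by exact_mod_cast hmn)
  have hcast : ((m - 2 : ℕ) : ℝ) = m - 2 := by
    rw [Nat.cast_sub (by omega)]; norm_num
  set M : ℝ := (Fintype.card (Edg (Fin m)) : ℝ) with hM
  have hMe : M = m * (m - 1) / 2 := card_Edg m
  set μ : ℝ := M * p with hμ
  have hlogm : 0 ≤ Real.log m := Real.log_nonneg (by linarith)
  have hpm : 9 ≤ p * (m - 2) := by
    rw [hcast] at hI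
    have h2 : p * (1 - p) * (m - 2) ≤ p * (m - 2) := by
      have : 0 ≤ p * (m - 2) := mul_nonneg h0.le (by linarith)
      nlinarith
    linarith
  have hμ4 : 4 ≤ μ := by
    rw [hμ, hMe]
    nlinarith
  set t : ℝ := μ + 3 * √μ with ht
  set 𝒜 : Finset (Gr (Fin m)) := univ.filter fun y => (nE y : ℝ) ≤ t ∧ (aut y).card ≤ 1 with h𝒜
  have hb := success_le_count h0.le h1.le hmn A 𝒜 (fun y hy => (Finset.mem_filter.1 hy).2.2)
  -- the exceptional probability
  set θ := Real.exp (-(p * (1 - p) * (m - 2 : ℕ) / 3)) with hθ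
  have hmθ : m * θ ≤ Real.exp (-3) := by
    have : (m : ℝ) = Real.exp (Real.log m) := (Real.exp_log hm0).symm
    rw [this, hθ, ← Real.exp_add, Real.exp_le_exp]
    linarith
  have he3 : Real.exp (-3) ≤ 1 / 20 := by
    rw [Real.exp_neg, ← one_div]
    refine one_div_le_one_div_of_le (by norm_num) ?_
    have h2 := Real.exp_one_gt_d9
    have h3 : Real.exp 3 = Real.exp 1 ^ 3 := by rw [← Real.exp_nat_mul]; norm_num
    rw [h3]
    calc (20 : ℝ) ≤ 2.718 ^ 3 := by norm_num
      _ ≤ Real.exp 1 ^ 3 := pow_le_pow_left₀ (by norm_num) (by linarith) 3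
  have he2 : Real.exp (-2) ≤ 14 / 100 := by
    rw [Real.exp_neg, ← one_div, div_le_iff₀ (Real.exp_pos _)]
    have h2 := Real.exp_one_gt_d9
    have h3 : Real.exp 2 = Real.exp 1 ^ 2 := by rw [← Real.exp_nat_mul]; norm_num
    rw [h3]
    nlinarith
  have hexc : Ex p (fun y : Gr (Fin m) => if y ∈ 𝒜 then (0 : ℝ) else 1) ≤
      14 / 100 + 1 / 10 := by
    have hle : ∀ y : Gr (Fin m), (if y ∈ 𝒜 then (0 : ℝ) else 1) ≤
        (if (nE y : ℝ) ≤ t then (0 : ℝ) else 1) + (if (aut y).card ≤ 1 then (0 : ℝ) else 1) := by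
      intro y
      by_cases ha : (nE y : ℝ) ≤ t <;> by_cases hb : (aut y).card ≤ 1 <;>
        simp [h𝒜, ha, hb]
    refine (Ex_mono h0.le h1.le hle).trans ?_
    rw [Ex_add]
    have h2 := tail_typ (J := Edg (Fin m)) h0.le h1.le hμ4
    have h3 := Ex_asym (m := m) h0.le h1.le (by
      rw [← hθ]
      linarith)
    rw [← hθ] at h3
    linarith
  -- the size of the typical set
  have hlogq : Real.log (1 - p) ≤ 0 := Real.log_nonpos hq.le (by linarith)
  have hlogpq : Real.log p ≤ Real.log (1 - p) := Real.log_le_log h0 (by linarith)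
  have hsize : (𝒜.card : ℝ) ≤ Real.exp (M * Real.binEntropy p + 6 * m) := by
    have h2 : ∀ y ∈ 𝒜, Real.exp (M * Real.log (1 - p) + t * (Real.log p - Real.log (1 - p))) ≤
        wt p y := by
      intro y hy
      rw [wt_eq h0 h1, Real.exp_le_exp]
      have h3 := (Finset.mem_filter.1 hy).2.1
      have h4 : t * (Real.log p - Real.log (1 - p)) ≤ nE y * (Real.log p - Real.log (1 - p)) :=
        mul_le_mul_of_nonpos_right h3 (by linarith)
      linarith
    have h3 : (𝒜.card : ℝ) * Real.exp (M * Real.log (1 - p) +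
        t * (Real.log p - Real.log (1 - p))) ≤ 1 := by
      rw [← nsmul_eq_mul, ← Finset.sum_const]
      refine (Finset.sum_le_sum h2).trans ?_
      rw [← sum_wt (J := Edg (Fin m)) p]
      exact Finset.sum_le_sum_of_subset_of_nonneg (Finset.subset_univ _)
        fun y _ _ => wt_nonneg h0.le h1.le y
    rw [← le_div_iff₀ (Real.exp_pos _), one_div, ← Real.exp_neg] at h3
    refine h3.trans (Real.exp_le_exp.2 ?_)
    have hent : Real.binEntropy p = -(p * Real.log p) - (1 - p) * Real.log (1 - p) := by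
      rw [Real.binEntropy, Real.log_inv, Real.log_inv]; ring
    have hsqrt : √μ ≤ m * √p := by
      have h5 : μ ≤ (m * √p) ^ 2 := by
        rw [mul_pow, Real.sq_sqrt h0.le, hμ, hMe]
        nlinarith [mul_nonneg hm0.le h0.le, mul_nonneg (mul_nonneg hm0.le hm0.le) h0.le]
      calc √μ ≤ √((m * √p) ^ 2) := Real.sqrt_le_sqrt h5
        _ = m * √p := Real.sqrt_sq (by positivity)
    have h6 : √μ * (Real.log (1 - p) - Real.log p) ≤ 2 * m := by
      have h7 : √μ * (Real.log (1 - p) - Real.log p) ≤ √μ * (-Real.log p) :=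
        mul_le_mul_of_nonneg_left (by linarith) (Real.sqrt_nonneg _)
      have h8 : 0 ≤ -Real.log p := by linarith
      have h9 : √μ * (-Real.log p) ≤ m * √p * (-Real.log p) :=
        mul_le_mul_of_nonneg_right hsqrt h8
      have h10 := mul_le_mul_of_nonneg_left (sqrt_mul_log h0) hm0.le
      nlinarith
    rw [hent, ht]
    have h11 : -(M * Real.log (1 - p) + (μ + 3 * √μ) * (Real.log p - Real.log (1 - p))) =
        M * (-(p * Real.log p) - (1 - p) * Real.log (1 - p)) +
          3 * (√μ * (Real.log (1 - p) - Real.log p)) := by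
      rw [hμ]; ring
    rw [h11]
    linarith
  have hN : (n : ℝ) ^ m * Real.exp (-m) ≤ (Fintype.card (Fin m ↪ Fin n) : ℝ) := by
    have h2 := desc_ge m n hmn
    have h3 : (Fintype.card (Fin m ↪ Fin n) : ℝ) = n.descFactorial m := by
      rw [Fintype.card_embedding_eq, Fintype.card_fin, Fintype.card_fin]
    rw [h3, Real.exp_neg, ← div_eq_mul_inv, div_le_iff₀ (Real.exp_pos _)]
    linarith
  have hratio : (𝒜.card : ℝ) / (Fintype.card (Fin m ↪ Fin n) : ℝ) ≤ 14 / 100 := by
    have hNpos : 0 < (n : ℝ) ^ m * Real.exp (-m) := by positivity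
    refine (div_le_div₀ (Real.exp_pos _).le hsize hNpos hN).trans ?_
    have h2 : (n : ℝ) ^ m = Real.exp (m * Real.log n) := by
      rw [Real.exp_nat_mul, Real.exp_log hn0]
    rw [h2, ← Real.exp_add, ← Real.exp_sub]
    refine le_trans (Real.exp_le_exp.2 ?_) he2
    have hh0 : 0 ≤ Real.binEntropy p := Real.binEntropy_nonneg h0.le h1.le
    have h3 : M * Real.binEntropy p ≤ m * (m / 2 * Real.binEntropy p) := by
      have e1 : (m : ℝ) * (m / 2 * Real.binEntropy p) - M * Real.binEntropy p =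
          m * Real.binEntropy p / 2 := by rw [hMe]; ring
      have e2 := mul_nonneg hm0.le hh0
      linarith
    have h4 := mul_le_mul_of_nonneg_left hK hm0.le
    have h5 : (m : ℝ) * (Real.log n - 9) = m * Real.log n - 9 * m := by ring
    linarith
  linarith

end Pool.Agent.Q211.Pair
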