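import Pool.Agent.Q211.Pair.Swap

open Finset

namespace Pool.Agent.Q211.Pair

variable {m : ℕ}

lemma Ex_unit (p : ℝ) (F : (Unit → Bool) → ℝ) :
    Ex p F = p * F (fun _ => true) + (1 - p) * F (fun _ => false) := by
  rw [Ex, ← (Equiv.funUnique Unit Bool).symm.sum_comp]
  simp only [Fintype.sum_bool, wt, Fintype.univ_punit, Finset.prod_singleton]
  rfl

/-- The other vertices. -/
abbrev KK (i j : Fin m) := {k : Fin m // k ≠ i ∧ k ≠ j}

/-- Index of the edges at `i` or `j`. -/
def jidx (i j : Fin m) (h : i ≠ j) : Unit ⊕ (KK i j ⊕ KK i j) → Edg (Fin m)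
  | .inl _ => mkE i j h
  | .inr (.inl k) => mkE i k.1 k.2.1.symm
  | .inr (.inr k) => mkE j k.1 k.2.2.symm

lemma sE {i j i' j' : Fin m} (e : s(i, j) = s(i', j')) :
    (i = i' ∧ j = j') ∨ (i = j' ∧ j = i') := Sym2.eq_iff.1 e

lemma jidx_inj (i j : Fin m) (h : i ≠ j) : Function.Injective (jidx i j h) := by
  intro a b hab
  have hv := congrArg Subtype.val hab
  rcases a with u | (⟨k, hk1, hk2⟩ | ⟨k, hk1, hk2⟩) <;>
    rcases b with u' | (⟨l, hl1, hl2⟩ | ⟨l, hl1, hl2⟩)
  · rfl
  · rcases sE (show s(i, j) = s(i, l) from hv) with ⟨_, h2⟩ | ⟨h1, h2⟩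
    · exact absurd h2.symm hl2
    · exact absurd h1.symm hl1
  · rcases sE (show s(i, j) = s(j, l) from hv) with ⟨h1, _⟩ | ⟨h1, _⟩
    · exact absurd h1 h
    · exact absurd h1.symm hl1
  · rcases sE (show s(i, k) = s(i, j) from hv) with ⟨_, h2⟩ | ⟨h1, h2⟩
    · exact absurd h2 hk2
    · exact absurd h2 hk1
  · rcases sE (show s(i, k) = s(i, l) from hv) with ⟨_, h2⟩ | ⟨h1, h2⟩
    · subst h2; rfl
    · exact absurd h2 hk1
  · rcases sE (show s(i, k) = s(j, l) from hv) with ⟨h1, _⟩ | ⟨h1, h2⟩
    · exact absurd h1 h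
    · exact absurd h2 hk2
  · rcases sE (show s(j, k) = s(i, j) from hv) with ⟨h1, _⟩ | ⟨h1, h2⟩
    · exact absurd h1.symm h
    · exact absurd h2 hk1
  · rcases sE (show s(j, k) = s(i, l) from hv) with ⟨h1, _⟩ | ⟨h1, h2⟩
    · exact absurd h1.symm h
    · exact absurd h2 hk1
  · rcases sE (show s(j, k) = s(j, l) from hv) with ⟨_, h2⟩ | ⟨h1, h2⟩
    · subst h2; rfl
    · exact absurd h2 hk2

/-- Bit as number. -/
def bn (b : Bool) : ℕ := if b then 1 else 0

lemma deg_fst (y : Gr (Fin m)) (i j : Fin m) (h : i ≠ j) :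
    deg y i = bn (y (jidx i j h (.inl ()))) +
      (univ.filter fun k : KK i j => y (jidx i j h (.inr (.inl k))) = true).card := by
  classical
  have h1 : deg y i = ∑ k, bn (adj y i k) := by
    rw [deg, Finset.card_filter]
    exact Finset.sum_congr rfl fun k _ => by simp [bn]
  rw [h1, ← Finset.add_sum_erase univ _ (Finset.mem_univ i),
    ← Finset.add_sum_erase (univ.erase i) _
      (Finset.mem_erase.2 ⟨h.symm, Finset.mem_univ j⟩)]
  have h2 : bn (adj y i i) = 0 := by simp [adj, bn]
  have h3 : bn (adj y i j) = bn (y (jidx i j h (.inl ()))) := by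
    rw [adj_of_ne y h]; rfl
  rw [h2, zero_add, h3]
  congr 1
  rw [Finset.card_filter, Finset.sum_subtype ((univ.erase i).erase j)
    (p := fun k => k ≠ i ∧ k ≠ j) (fun k => by simp [and_comm])]
  refine Finset.sum_congr rfl fun k _ => ?_
  rw [adj_of_ne y k.2.1.symm]
  rfl

lemma jidx_swap_inl (i j : Fin m) (h : i ≠ j) : jidx j i h.symm (.inl ()) =
    jidx i j h (.inl ()) := Subtype.ext Sym2.eq_swap

lemma deg_snd (y : Gr (Fin m)) (i j : Fin m) (h : i ≠ j) :
    deg y j = bn (y (jidx i j h (.inl ()))) +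
      (univ.filter fun k : KK i j => y (jidx i j h (.inr (.inr k))) = true).card := by
  classical
  rw [deg_fst y j i h.symm, jidx_swap_inl i j h]
  congr 1
  refine Finset.card_bij (fun k _ => ⟨k.1, k.2.2, k.2.1⟩) ?_ ?_ ?_
  · intro k hk
    exact Finset.mem_filter.2 ⟨Finset.mem_univ _, (Finset.mem_filter.1 hk).2⟩
  · intro a _ b _ hab
    have : a.1 = b.1 := congrArg (fun z : KK i j => z.1) hab
    exact Subtype.ext this
  · intro k hk
    exact ⟨⟨k.1, k.2.2, k.2.1⟩, Finset.mem_filter.2 ⟨Finset.mem_univ _,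
      (Finset.mem_filter.1 hk).2⟩, rfl⟩

/-- The probability that a sum over the other vertices takes a given value. -/
noncomputable def Cc (p : ℝ) (i j : Fin m) (d b : ℕ) : ℝ :=
  Ex p (fun r : KK i j → Bool => if b + (univ.filter fun k => r k = true).card = d then
    (1 : ℝ) else 0)

lemma Ex_joint (p : ℝ) (i j : Fin m) (h : i ≠ j) (d : ℕ) :
    Ex p (fun y : Gr (Fin m) => (if deg y i = d then (1 : ℝ) else 0) *
      (if deg y j = d then 1 else 0)) =
      p * Cc p i j d 1 ^ 2 + (1 - p) * Cc p i j d 0 ^ 2 := by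
  have h1 : (fun y : Gr (Fin m) => (if deg y i = d then (1 : ℝ) else 0) *
      (if deg y j = d then 1 else 0)) = fun y =>
      (fun v : Unit ⊕ (KK i j ⊕ KK i j) → Bool =>
        (if bn (v (.inl ())) + (univ.filter fun k => v (.inr (.inl k)) = true).card = d
          then (1 : ℝ) else 0) *
        (if bn (v (.inl ())) + (univ.filter fun k => v (.inr (.inr k)) = true).card = d
          then (1 : ℝ) else 0)) (fun a => y (jidx i j h a)) := by
    funext y
    rw [deg_fst y i j h, deg_snd y i j h]
  rw [h1]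
  refine (Ex_marg p (jidx i j h) (jidx_inj i j h)
    (fun v : Unit ⊕ (KK i j ⊕ KK i j) → Bool =>
        (if bn (v (.inl ())) + (univ.filter fun k => v (.inr (.inl k)) = true).card = d
          then (1 : ℝ) else 0) *
        (if bn (v (.inl ())) + (univ.filter fun k => v (.inr (.inr k)) = true).card = d
          then (1 : ℝ) else 0))).trans ?_
  refine (Ex_sumType p (fun (u : Unit → Bool) (v : KK i j ⊕ KK i j → Bool) =>
        (if bn (u ()) + (univ.filter fun k => v (.inl k) = true).card = d
          then (1 : ℝ) else 0) *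
        (if bn (u ()) + (univ.filter fun k => v (.inr k) = true).card = d
          then (1 : ℝ) else 0))).trans ?_
  have h2 : ∀ b : ℕ, Ex p (fun v : KK i j ⊕ KK i j → Bool =>
        (if b + (univ.filter fun k => v (.inl k) = true).card = d
          then (1 : ℝ) else 0) *
        (if b + (univ.filter fun k => v (.inr k) = true).card = d
          then (1 : ℝ) else 0)) = Cc p i j d b ^ 2 := by
    intro b
    refine (Ex_sumType p (fun (r s : KK i j → Bool) =>
        (if b + (univ.filter fun k => r k = true).card = d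
          then (1 : ℝ) else 0) *
        (if b + (univ.filter fun k => s k = true).card = d
          then (1 : ℝ) else 0))).trans ?_
    simp only [Ex_mul_left]
    have : (fun y : KK i j → Bool =>
        (if b + (univ.filter fun k => y k = true).card = d then (1 : ℝ) else 0) *
        Ex p (fun x : KK i j → Bool =>
          if b + (univ.filter fun k => x k = true).card = d then (1 : ℝ) else 0)) =
        fun y => Cc p i j d b *
          (if b + (univ.filter fun k => y k = true).card = d then (1 : ℝ) else 0) := by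
      funext y; rw [mul_comm]; rfl
    rw [this, Ex_mul_left, sq]
    rfl
  rw [Ex_unit]
  congr 1
  · congr 1; exact h2 1
  · congr 1; exact h2 0

lemma Ex_single (p : ℝ) (i j : Fin m) (h : i ≠ j) (d : ℕ) :
    Ex p (fun y : Gr (Fin m) => (if deg y i = d then (1 : ℝ) else 0)) =
      p * Cc p i j d 1 + (1 - p) * Cc p i j d 0 := by
  have h1 : (fun y : Gr (Fin m) => (if deg y i = d then (1 : ℝ) else 0)) = fun y =>
      (fun v : Unit ⊕ (KK i j ⊕ KK i j) → Bool =>
        (if bn (v (.inl ())) + (univ.filter fun k => v (.inr (.inl k)) = true).card = d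
          then (1 : ℝ) else 0)) (fun a => y (jidx i j h a)) := by
    funext y
    rw [deg_fst y i j h]
  rw [h1]
  refine (Ex_marg p (jidx i j h) (jidx_inj i j h)
    (fun v : Unit ⊕ (KK i j ⊕ KK i j) → Bool =>
        (if bn (v (.inl ())) + (univ.filter fun k => v (.inr (.inl k)) = true).card = d
          then (1 : ℝ) else 0))).trans ?_
  refine (Ex_sumType p (fun (u : Unit → Bool) (v : KK i j ⊕ KK i j → Bool) =>
        (if bn (u ()) + (univ.filter fun k => v (.inl k) = true).card = d
          then (1 : ℝ) else 0))).trans ?_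
  have h2 : ∀ b : ℕ, Ex p (fun v : KK i j ⊕ KK i j → Bool =>
        (if b + (univ.filter fun k => v (.inl k) = true).card = d
          then (1 : ℝ) else 0)) = Cc p i j d b := by
    intro b
    refine (Ex_sumType p (fun (r _ : KK i j → Bool) =>
        (if b + (univ.filter fun k => r k = true).card = d
          then (1 : ℝ) else 0))).trans ?_
    simp only [Ex_const]
    rfl
  rw [Ex_unit]
  congr 1
  · congr 1; exact h2 1
  · congr 1; exact h2 0

lemma card_KK (i j : Fin m) (h : i ≠ j) : Fintype.card (KK i j) = m - 2 := by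
  classical
  rw [Fintype.card_subtype]
  have : (univ.filter fun k : Fin m => k ≠ i ∧ k ≠ j) = (univ.erase i).erase j := by
    ext k; simp [and_comm]
  rw [this, Finset.card_erase_of_mem (Finset.mem_erase.2 ⟨h.symm, Finset.mem_univ j⟩),
    Finset.card_erase_of_mem (Finset.mem_univ i), Finset.card_univ, Fintype.card_fin]
  omega

lemma Cc_zero (p : ℝ) (i j : Fin m) (h : i ≠ j) (d : ℕ) :
    Cc p i j d 0 = (m - 2).choose d * p ^ d * (1 - p) ^ (m - 2 - d) := by
  rw [Cc]
  simp only [zero_add]
  rw [Ex_count, card_KK i j h]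

lemma Cc_one_zero (p : ℝ) (i j : Fin m) : Cc p i j 0 1 = 0 := by
  rw [Cc]
  have : (fun r : KK i j → Bool => if 1 + (univ.filter fun k => r k = true).card = 0 then
    (1 : ℝ) else 0) = fun _ => 0 := by
    funext r; rw [if_neg]; omega
  rw [this, Ex_const]

lemma Cc_one_succ (p : ℝ) (i j : Fin m) (h : i ≠ j) (d : ℕ) :
    Cc p i j (d + 1) 1 = (m - 2).choose d * p ^ d * (1 - p) ^ (m - 2 - d) := by
  rw [← Cc_zero p i j h d, Cc, Cc]
  refine congrArg _ (funext fun r => ?_)
  have : (1 + (univ.filter fun k => r k = true).card = d + 1) ↔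
      (0 + (univ.filter fun k => r k = true).card = d) := by omega
  simp only [this]

/-- The probability of degree `d`. -/
noncomputable def ad (p : ℝ) (m d : ℕ) : ℝ := (m - 1).choose d * p ^ d * (1 - p) ^ (m - 1 - d)

lemma Ex_deg (p : ℝ) (i : Fin m) (d : ℕ) :
    Ex p (fun y : Gr (Fin m) => (if deg y i = d then (1 : ℝ) else 0)) = ad p m d := by
  classical
  have hg : Function.Injective (fun j : {j : Fin m // j ≠ i} => mkE i j.1 j.2.symm) := by
    intro a b h
    have hv := congrArg Subtype.val h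
    rcases sE (show s(i, a.1) = s(i, b.1) from hv) with ⟨_, h2⟩ | ⟨h2, _⟩
    · exact Subtype.ext h2
    · exact absurd h2.symm b.2
  have h1 : (fun y : Gr (Fin m) => (if deg y i = d then (1 : ℝ) else 0)) = fun y =>
      (fun a : {j : Fin m // j ≠ i} → Bool =>
        if (univ.filter fun j => a j = true).card = d then (1 : ℝ) else 0)
        (fun j => y (mkE i j.1 j.2.symm)) := by
    funext y
    have : deg y i = (univ.filter fun j : {j : Fin m // j ≠ i} =>
        y (mkE i j.1 j.2.symm) = true).card := by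
      rw [deg, Finset.card_filter, Finset.card_filter,
        ← Finset.add_sum_erase univ _ (Finset.mem_univ i)]
      have h2 : (if adj y i i = true then 1 else 0) = 0 := by simp [adj]
      rw [h2, zero_add, Finset.sum_subtype (univ.erase i) (p := fun j => j ≠ i)
        (fun j => by simp)]
      refine Finset.sum_congr rfl fun j _ => ?_
      rw [adj_of_ne y j.2.symm]
    rw [this]
  rw [h1]
  refine (Ex_marg p (fun j : {j : Fin m // j ≠ i} => mkE i j.1 j.2.symm) hg
    (fun a : {j : Fin m // j ≠ i} → Bool =>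
        if (univ.filter fun j => a j = true).card = d then (1 : ℝ) else 0)).trans ?_
  rw [Ex_count, ad]
  have h4 : Fintype.card {j : Fin m // j ≠ i} = m - 1 := by
    rw [Fintype.card_subtype_compl, Fintype.card_fin]; simp
  rw [h4]

lemma joint_le {p : ℝ} (h0 : 0 < p) (h1 : p < 1) (i j : Fin m) (h : i ≠ j) (d : ℕ)
    (hd : (d : ℝ) * (1 - p) ≤ ((m : ℝ) - 1 - d) * p) :
    Ex p (fun y : Gr (Fin m) => (if deg y i = d then (1 : ℝ) else 0) *
      (if deg y j = d then 1 else 0)) ≤ ad p m d ^ 2 * (1 + p / (1 - p)) := by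
  have hq : 0 < 1 - p := by linarith
  rw [Ex_joint p i j h d, ← Ex_deg p i d, Ex_single p i j h d]
  set B1 := Cc p i j d 1 with hB1
  set B0 := Cc p i j d 0 with hB0
  have hB0n : 0 ≤ B0 := Ex_nonneg h0.le h1.le fun r => by split_ifs <;> norm_num
  have hB1n : 0 ≤ B1 := Ex_nonneg h0.le h1.le fun r => by split_ifs <;> norm_num
  have hle : B1 ≤ B0 := by
    rcases d with _ | d
    · rw [hB1, Cc_one_zero]; exact hB0n
    · rw [hB1, hB0, Cc_one_succ p i j h, Cc_zero p i j h]
      have hd1 : (0 : ℝ) < (d : ℝ) + 1 := by positivity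
      have hmd : d + 1 ≤ m - 2 := by
        by_contra hc
        push Not at hc
        have hm2 : 2 ≤ m := by
          have := i.2; have := j.2
          have : i.1 ≠ j.1 := fun h' => h (Fin.ext h')
          omega
        have : (m : ℝ) ≤ d + 2 := by
          have : m ≤ d + 2 := by omega
          exact_mod_cast this
        push_cast at hd
        have h3 : ((m : ℝ) - 1 - (d + 1)) * p ≤ 0 :=
          mul_nonpos_of_nonpos_of_nonneg (by linarith) h0.le
        have h4 : 0 < ((d : ℝ) + 1) * (1 - p) := mul_pos hd1 hq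
        linarith
      have hch : (m - 2).choose (d + 1) * (d + 1) = (m - 2).choose d * (m - 2 - d) :=
        Nat.choose_succ_right_eq _ _
      have hch' : ((m - 2).choose (d + 1) : ℝ) * ((d : ℝ) + 1) =
          (m - 2).choose d * ((m : ℝ) - 2 - d) := by
        have h5 : ((m - 2 - d : ℕ) : ℝ) = (m : ℝ) - 2 - d := by
          rw [Nat.cast_sub (by omega), Nat.cast_sub (by omega)]
          push_cast; ring
        rw [← h5]
        exact_mod_cast hch
      have hpow : (1 - p) ^ (m - 2 - d) = (1 - p) ^ (m - 2 - (d + 1)) * (1 - p) := by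
        rw [← pow_succ]; congr 1; omega
      rw [hpow, pow_succ p d]
      have hX : 0 ≤ p ^ d * (1 - p) ^ (m - 2 - (d + 1)) := by positivity
      have hc0 : (0 : ℝ) ≤ (m - 2).choose d := by positivity
      have hkey : ((m - 2).choose d : ℝ) * (1 - p) ≤ (m - 2).choose (d + 1) * p := by
        have h6 : ((m - 2).choose d : ℝ) * (1 - p) * ((d : ℝ) + 1) ≤
            (m - 2).choose (d + 1) * p * ((d : ℝ) + 1) := by
          calc ((m - 2).choose d : ℝ) * (1 - p) * ((d : ℝ) + 1) =
              (m - 2).choose d * (((d : ℝ) + 1) * (1 - p)) := by ring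
            _ ≤ (m - 2).choose d * (((m : ℝ) - 2 - d) * p) := by
                refine mul_le_mul_of_nonneg_left ?_ hc0
                push_cast at hd
                linarith
            _ = ((m - 2).choose (d + 1) : ℝ) * ((d : ℝ) + 1) * p := by rw [hch']; ring
            _ = _ := by ring
        exact le_of_mul_le_mul_right h6 hd1
      calc ((m - 2).choose d : ℝ) * p ^ d * ((1 - p) ^ (m - 2 - (d + 1)) * (1 - p)) =
          (p ^ d * (1 - p) ^ (m - 2 - (d + 1))) * ((m - 2).choose d * (1 - p)) := by ring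
        _ ≤ (p ^ d * (1 - p) ^ (m - 2 - (d + 1))) * ((m - 2).choose (d + 1) * p) :=
            mul_le_mul_of_nonneg_left hkey hX
        _ = _ := by ring
  have h2 : (B0 - B1) ^ 2 ≤ B0 ^ 2 := pow_le_pow_left₀ (by linarith) (by linarith) 2
  have h3 : (1 - p) * B0 ≤ p * B1 + (1 - p) * B0 := by nlinarith
  have h4 : ((1 - p) * B0) ^ 2 ≤ (p * B1 + (1 - p) * B0) ^ 2 :=
    pow_le_pow_left₀ (by positivity) h3 2
  have h5 : p * B1 ^ 2 + (1 - p) * B0 ^ 2 - (p * B1 + (1 - p) * B0) ^ 2 =
      p * (1 - p) * (B0 - B1) ^ 2 := by ring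
  have h6 : p * (1 - p) * (B0 - B1) ^ 2 ≤ p * (1 - p) * B0 ^ 2 :=
    mul_le_mul_of_nonneg_left h2 (by positivity)
  have h7 : p * (1 - p) * B0 ^ 2 = p / (1 - p) * ((1 - p) * B0) ^ 2 := by
    field_simp
  have h8 : p / (1 - p) * ((1 - p) * B0) ^ 2 ≤
      p / (1 - p) * (p * B1 + (1 - p) * B0) ^ 2 :=
    mul_le_mul_of_nonneg_left h4 (by positivity)
  have h9 : (p * B1 + (1 - p) * B0) ^ 2 * (1 + p / (1 - p)) =
      (p * B1 + (1 - p) * B0) ^ 2 + p / (1 - p) * (p * B1 + (1 - p) * B0) ^ 2 := by ring
  rw [h9]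
  linarith

open Classical in
/-- Second moment: some vertex has degree `d`. -/
theorem no_deg_le {p : ℝ} (h0 : 0 < p) (h1 : p < 1) (hm : 1 ≤ m) (d : ℕ)
    (hd : (d : ℝ) * (1 - p) ≤ ((m : ℝ) - 1 - d) * p) (ha : 0 < ad p m d) :
    Ex p (fun y : Gr (Fin m) => if ∃ i, deg y i = d then (0 : ℝ) else 1) ≤
      1 / (m * ad p m d) + p / (1 - p) := by
  have hq : 0 < 1 - p := by linarith
  have hm0 : (0 : ℝ) < m := by exact_mod_cast hm
  set a := ad p m d with hadef
  set X : Gr (Fin m) → ℝ := fun y => ∑ i, (if deg y i = d then (1 : ℝ) else 0) with hX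
  have hEX : Ex p X = m * a := by
    rw [hX, Ex_sum]
    simp only [Ex_deg]
    rw [Finset.sum_const, Finset.card_univ, Fintype.card_fin, nsmul_eq_mul]
  have hEX2 : Ex p (fun y => X y ^ 2) ≤ m * a + m ^ 2 * (a ^ 2 * (1 + p / (1 - p))) := by
    have e1 : (fun y => X y ^ 2) = fun y => ∑ i, ∑ j, ((if deg y i = d then (1 : ℝ) else 0) *
        (if deg y j = d then 1 else 0)) := by
      funext y
      rw [hX, sq, Finset.sum_mul_sum]
    rw [e1, Ex_sum]
    have e2 : ∀ i : Fin m, Ex p (fun y : Gr (Fin m) => ∑ j, ((if deg y i = d then (1 : ℝ) else 0) *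
        (if deg y j = d then 1 else 0))) ≤ a + m * (a ^ 2 * (1 + p / (1 - p))) := by
      intro i
      rw [Ex_sum, ← Finset.add_sum_erase univ _ (Finset.mem_univ i)]
      have e3 : Ex p (fun y : Gr (Fin m) => (if deg y i = d then (1 : ℝ) else 0) *
          (if deg y i = d then 1 else 0)) = a := by
        rw [hadef, ← Ex_deg p i d]
        refine congrArg _ (funext fun y => ?_)
        split_ifs <;> norm_num
      have e4 : ∑ j ∈ univ.erase i, Ex p (fun y : Gr (Fin m) =>
          (if deg y i = d then (1 : ℝ) else 0) * (if deg y j = d then 1 else 0)) ≤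
          ∑ j ∈ univ.erase i, (a ^ 2 * (1 + p / (1 - p))) :=
        Finset.sum_le_sum fun j hj => joint_le h0 h1 i j (Finset.ne_of_mem_erase hj).symm d hd
      have e5 : ∑ j ∈ univ.erase i, (a ^ 2 * (1 + p / (1 - p))) ≤
          m * (a ^ 2 * (1 + p / (1 - p))) := by
        rw [Finset.sum_const, nsmul_eq_mul, Finset.card_erase_of_mem (Finset.mem_univ i),
          Finset.card_univ, Fintype.card_fin]
        refine mul_le_mul_of_nonneg_right ?_ (by positivity)
        exact_mod_cast Nat.sub_le m 1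
      linarith
    refine (Finset.sum_le_sum fun i _ => e2 i).trans (le_of_eq ?_)
    rw [Finset.sum_const, Finset.card_univ, Fintype.card_fin, nsmul_eq_mul]
    ring
  have hvar : Ex p (fun y => (X y - m * a) ^ 2) ≤ m * a + m ^ 2 * a ^ 2 * (p / (1 - p)) := by
    have e1 : (fun y => (X y - m * a) ^ 2) =
        fun y => (X y ^ 2 - (2 * (m * a)) * X y) + (m * a) ^ 2 := by funext y; ring
    rw [e1, Ex_add, Ex_sub, Ex_const, Ex_mul_left, hEX]
    nlinarith
  have hcheb : (m * a) ^ 2 * Ex p (fun y : Gr (Fin m) =>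
      if ∃ i, deg y i = d then (0 : ℝ) else 1) ≤ Ex p (fun y => (X y - m * a) ^ 2) := by
    rw [← Ex_mul_left]
    refine Ex_mono h0.le h1.le fun y => ?_
    by_cases h : ∃ i, deg y i = d
    · rw [if_pos h, mul_zero]; positivity
    · rw [if_neg h]
      have hX0 : X y = 0 := by
        rw [hX]
        refine Finset.sum_eq_zero fun i _ => ?_
        rw [if_neg]
        exact fun hi => h ⟨i, hi⟩
      rw [hX0]
      apply le_of_eq
      ring
  have hma : 0 < m * a := mul_pos hm0 ha
  have h3 := hcheb.trans hvar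
  rw [mul_comm, ← le_div_iff₀ (by positivity)] at h3
  refine h3.trans (le_of_eq ?_)
  field_simp

end Pool.Agent.Q211.Pair
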