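import Pool.Agent.Q211.Pair.Sparse

open Finset Filter

namespace Pool.Agent.Q211.Pair

variable {n m : ℕ}

open Classical in
lemma success_of_notBad {p β : ℝ} (h0 : 0 ≤ p) (h1 : p ≤ 1) (hmn : m ≤ n) (A : Est n m)
    (hβ : ∀ f : Fin m ↪ Fin n,
      Ex p (fun x : Gr (Fin n) => if Bad x f then (0 : ℝ) else 1) ≤ 1 - β) :
    success p A ≤ 1 - β / 2 := by
  refine success_le_bad h0 h1 hmn A fun f => ?_
  rw [Ex_bad]
  linarith [hβ f]

lemma ent_ge {p : ℝ} (h0 : 0 < p) (hp : p ≤ 1 / 2) : -(p * Real.log p) ≤ Real.binEntropy p := by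
  rw [Real.binEntropy, Real.log_inv, Real.log_inv]
  have h1 : Real.log (1 - p) ≤ 0 := Real.log_nonpos (by linarith) (by linarith)
  have h2 : (1 - p) * Real.log (1 - p) ≤ 0 := mul_nonpos_of_nonneg_of_nonpos (by linarith) h1
  linarith

open Classical in
lemma success_of_deg {p : ℝ} (h0 : 0 < p) (h1 : p < 1) (hm : 1 ≤ m) (hmn : m ≤ n)
    (A : Est n m) (d : ℕ)
    (hd : (d : ℝ) * (1 - p) ≤ ((m : ℝ) - 1 - d) * p) (ha : 0 < ad p m d)
    (hab : 1 / (m * ad p m d) + p / (1 - p) +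
      (1 - p ^ d * (1 - p) ^ (m - 1 - d)) ^ (n - m) ≤ 99 / 100) :
    success p A ≤ 199 / 200 := by
  have h := success_of_notBad (β := 1 / 100) h0.le h1.le hmn A (fun f => by
    have h2 := notBad_le_deg h0.le h1.le (by omega : 0 < m) f d
    have h3 := no_deg_le h0 h1 hm d hd ha
    refine h2.trans ?_
    refine (add_le_add_left h3 _).trans ?_
    refine hab.trans (by norm_num))
  linarith

lemma small_facts {p : ℝ} (h0 : 0 < p) (hps : p ≤ Real.exp (-12)) :
    p ≤ 1 / 4000 ∧ Real.log p ≤ -12 := by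
  constructor
  · refine hps.trans ?_
    rw [Real.exp_neg, ← one_div]
    refine one_div_le_one_div_of_le (by norm_num) ?_
    have h3 : Real.exp 12 = Real.exp 1 ^ 12 := by rw [← Real.exp_nat_mul]; norm_num
    have h4 := Real.exp_one_gt_d9
    rw [h3]
    calc (4000 : ℝ) ≤ 2 ^ 12 := by norm_num
      _ ≤ Real.exp 1 ^ 12 := pow_le_pow_left₀ (by norm_num) (by linarith) 12
  · have := Real.log_le_log h0 hps
    rwa [Real.log_exp] at this

lemma K_lower {p : ℝ} (h0 : 0 < p) (hp : p ≤ 1 / 2)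
    (hK : m / 2 * Real.binEntropy p ≤ Real.log n - 9) :
    -((m * p) / 2 * Real.log p) ≤ Real.log n - 9 := by
  have h7 := mul_le_mul_of_nonneg_left (ent_ge h0 hp) (by positivity : 0 ≤ (m : ℝ) / 2)
  have h8 : (m : ℝ) / 2 * -(p * Real.log p) = -((m * p) / 2 * Real.log p) := by ring
  rw [h8] at h7
  exact h7.trans hK

lemma fin1 {p lam q0 : ℝ} {d : ℕ} (hlam0 : 0 < lam) (hq0n : 0 ≤ q0) (hq01 : q0 ≤ 1)
    (hn0 : (0 : ℝ) < n) (h2m : 2 * m ≤ n) (hlogp : Real.log p ≤ -12)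
    (hd1 : (d : ℝ) ≤ 2 / 5 * lam)
    (hK : -(lam / 2 * Real.log p) ≤ Real.log n - 9)
    (hq0ge : Real.exp (d * Real.log p + (-lam - 1)) ≤ q0) :
    (1 - q0) ^ (n - m) ≤ 983 / 1000 := by
  have hnm : (n : ℝ) / 2 ≤ ((n - m : ℕ) : ℝ) := by
    rw [Nat.cast_sub (by omega)]
    have : (2 : ℝ) * m ≤ n := by exact_mod_cast h2m
    linarith
  have h2 : (1 - q0) ^ (n - m) ≤ Real.exp (-(q0 * (n - m : ℕ))) := by
    have h3 : 1 - q0 ≤ Real.exp (-q0) := by
      have := Real.add_one_le_exp (-q0); linarith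
    refine (pow_le_pow_left₀ (by linarith) h3 _).trans (le_of_eq ?_)
    rw [← Real.exp_nat_mul]
    congr 1; ring
  have h4 : 9 ≤ n * q0 := by
    have h5 : (n : ℝ) = Real.exp (Real.log n) := (Real.exp_log hn0).symm
    have h6 : Real.exp (Real.log n + (d * Real.log p + (-lam - 1))) ≤ n * q0 := by
      rw [Real.exp_add, ← h5]
      exact mul_le_mul_of_nonneg_left hq0ge hn0.le
    refine le_trans ?_ h6
    have h9 : 2 / 5 * lam * Real.log p ≤ d * Real.log p :=
      mul_le_mul_of_nonpos_right hd1 (by linarith)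
    have h10 : lam * Real.log p ≤ lam * (-12) := mul_le_mul_of_nonneg_left hlogp hlam0.le
    have h11 : 8 ≤ Real.log n + (d * Real.log p + (-lam - 1)) := by linarith
    have h12 := Real.add_one_le_exp (8 : ℝ)
    have h13 := Real.exp_le_exp.2 h11
    linarith
  have h14 : 4 ≤ q0 * (n - m : ℕ) := by
    have := mul_le_mul_of_nonneg_left hnm hq0n
    linarith
  have h15 : Real.exp (-(q0 * (n - m : ℕ))) ≤ Real.exp (-4) :=
    Real.exp_le_exp.2 (by linarith)
  have h16 : Real.exp (-4) ≤ 1 / 5 := by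
    rw [Real.exp_neg, ← one_div]
    refine one_div_le_one_div_of_le (by norm_num) ?_
    have := Real.add_one_le_exp (4 : ℝ)
    linarith
  linarith

lemma fin2 {p lam q0 L : ℝ} {d : ℕ} (hL : 200 ≤ L) (hLm : L = Real.log m) (hm0 : (0 : ℝ) < m)
    (hlamd : lam = m * p) (hlam0 : 0 < lam) (hq01 : q0 ≤ 1)
    (hn0 : (0 : ℝ) < n) (hmn : m < n) (h2m : n < 2 * m)
    (hlam : lam ≤ 305 / 100 * L)
    (hd : d = ⌊2 / 5 * lam⌋₊)
    (hK : -(lam / 2 * Real.log p) ≤ Real.log n - 9)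
    (hq0ge : Real.exp (d * Real.log p + (-lam - 1)) ≤ q0) :
    (1 - q0) ^ (n - m) ≤ 983 / 1000 := by
  have hnR : (n : ℝ) ≤ 2 * m := by
    have : n ≤ 2 * m := by omega
    exact_mod_cast this
  have hlogn : Real.log n ≤ L + 1 := by
    have h2 := Real.log_le_log hn0 hnR
    rw [Real.log_mul (by norm_num) hm0.ne', ← hLm] at h2
    have h3 := Real.log_two_lt_d9
    linarith
  have hlogp2 : Real.log p ≤ -(94 / 100 * L) := by
    have h2 : p = lam / m := by rw [hlamd]; field_simp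
    rw [h2, Real.log_div hlam0.ne' hm0.ne', ← hLm]
    have h3 : Real.log lam ≤ 6 / 100 * L := by
      have h4 : Real.log lam ≤ Real.log (4 * L) :=
        Real.log_le_log hlam0 (by linarith)
      have h5 : Real.log (4 * L / 100) ≤ 4 * L / 100 - 1 :=
        Real.log_le_sub_one_of_pos (by positivity)
      rw [Real.log_div (by positivity) (by norm_num)] at h5
      have h6 : Real.log 100 ≤ 5 := by
        rw [Real.log_le_iff_le_exp (by norm_num)]
        have h3 := Real.exp_one_gt_d9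
        have h4 : Real.exp 5 = Real.exp 1 ^ 5 := by rw [← Real.exp_nat_mul]; norm_num
        rw [h4]
        calc (100 : ℝ) ≤ 2.718 ^ 5 := by norm_num
          _ ≤ Real.exp 1 ^ 5 := pow_le_pow_left₀ (by norm_num) (by linarith) 5
      linarith
    linarith
  have hlam2 : lam ≤ 22 / 10 := by
    have h9 : lam / 2 * Real.log p ≤ lam / 2 * (-(94 / 100 * L)) :=
      mul_le_mul_of_nonneg_left hlogp2 (by positivity)
    have e9 : lam / 2 * (-(94 / 100 * L)) = -(lam * (47 / 100 * L)) := by ring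
    rw [e9] at h9
    have h10 : lam * (47 / 100 * L) ≤ L := by linarith
    by_contra hc
    push Not at hc
    have hL0 : 0 < 47 / 100 * L := by linarith
    have h11 := mul_lt_mul_of_pos_right hc hL0
    linarith
  have hd0 : d = 0 := by
    rw [hd]
    exact Nat.floor_eq_zero.2 (by linarith)
  have hq0ge' : 18 / 1000 ≤ q0 := by
    refine le_trans ?_ hq0ge
    rw [hd0]
    push_cast
    have h2 : Real.exp (-4) ≤ Real.exp (0 * Real.log p + (-lam - 1)) :=
      Real.exp_le_exp.2 (by linarith)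
    refine le_trans ?_ h2
    rw [Real.exp_neg, ← one_div, le_div_iff₀ (Real.exp_pos _)]
    have h4 : Real.exp 4 = Real.exp 1 ^ 4 := by rw [← Real.exp_nat_mul]; norm_num
    have h5 := Real.exp_one_lt_d9
    have h6 : Real.exp 1 ^ 4 ≤ 2.7183 ^ 4 :=
      pow_le_pow_left₀ (Real.exp_pos _).le (by linarith) 4
    rw [h4]
    have h7 : (18 / 1000 : ℝ) * 2.7183 ^ 4 ≤ 1 := by norm_num
    linarith
  have hk : n - m ≠ 0 := by omega
  have := pow_le_of_le_one (by linarith : 0 ≤ 1 - q0) (by linarith) hk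
  linarith

/-- The sparse regime. -/
theorem caseII {p : ℝ} (h0 : 0 < p) (hp : p ≤ 1 / 2) (hm : 3 ≤ m) (hmn : m < n)
    (hL : 200 ≤ Real.log m) (hm2 : 20 * Real.log m ^ 2 ≤ m) (hps : p ≤ Real.exp (-12))
    (hlam : m * p ≤ 305 / 100 * Real.log m) (hmp : m * p * p ≤ 1 / 2)
    (hK : m / 2 * Real.binEntropy p ≤ Real.log n - 9) (A : Est n m) :
    success p A ≤ 199 / 200 := by
  have h1 : p < 1 := by linarith
  have hq : 0 < 1 - p := by linarith
  have hm0 : (0 : ℝ) < m := by positivity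
  have hm3 : (3 : ℝ) ≤ m := by exact_mod_cast hm
  have hmnR : (m : ℝ) + 1 ≤ n := by exact_mod_cast hmn
  have hn0 : (0 : ℝ) < n := by linarith
  have hK' := K_lower h0 hp hK
  have hlam0 : (0 : ℝ) < m * p := mul_pos hm0 h0
  obtain ⟨d, hd⟩ : ∃ d : ℕ, d = ⌊2 / 5 * ((m : ℝ) * p)⌋₊ := ⟨_, rfl⟩
  have had := ad_ge h0 hp (by omega) hmp hL hlam hm2 d hd
  have hadpos : 0 < ad p m d := by
    by_contra hc
    push Not at hc
    have := mul_nonpos_of_nonneg_of_nonpos hm0.le hc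
    linarith
  have hd1 : (d : ℝ) ≤ 2 / 5 * (m * p) := by
    rw [hd]; exact Nat.floor_le (by positivity)
  obtain ⟨hp4, hlogp⟩ := small_facts h0 hps
  have hdcond : (d : ℝ) * (1 - p) ≤ ((m : ℝ) - 1 - d) * p := by
    have h3 : 2 / 5 * ((m : ℝ) * p) ≤ ((m : ℝ) - 1) * p := by
      nlinarith
    nlinarith
  have hn1 : 1 / (m * ad p m d) ≤ 1 / 200 := one_div_le_one_div_of_le (by norm_num) had
  have hn2 : p / (1 - p) ≤ 1 / 3000 := by
    rw [div_le_iff₀ hq]; linarith
  obtain ⟨q0, hq0⟩ : ∃ q0 : ℝ, q0 = p ^ d * (1 - p) ^ (m - 1 - d) := ⟨_, rfl⟩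
  have hq0n : 0 ≤ q0 := by rw [hq0]; positivity
  have hq01 : q0 ≤ 1 := by
    rw [hq0]
    exact mul_le_one₀ (pow_le_one₀ h0.le h1.le) (by positivity)
      (pow_le_one₀ hq.le (by linarith))
  have hq0ge : Real.exp (d * Real.log p + (-(m * p) - 1)) ≤ q0 := by
    rw [Real.exp_add, Real.exp_nat_mul, Real.exp_log h0, hq0]
    exact mul_le_mul_of_nonneg_left (one_sub_pow_ge h0 hp hmp _ (by omega)) (by positivity)
  have hfin : (1 - q0) ^ (n - m) ≤ 983 / 1000 := by
    by_cases h2m : 2 * m ≤ n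
    · exact fin1 hlam0 hq0n hq01 hn0 h2m hlogp hd1 hK' hq0ge
    · push Not at h2m
      exact fin2 hL rfl hm0 rfl hlam0 hq01 hn0 hmn h2m hlam hd hK' hq0ge
  rw [hq0] at hfin
  exact success_of_deg h0 h1 (by omega) hmn.le A d hdcond hadpos (by linarith)

open Classical in
/-- Bounded `m`. -/
theorem caseSmall {p : ℝ} (h0 : 0 ≤ p) (h1 : p ≤ 1) (hm : 1 ≤ m) (hmn : m < n)
    (hs : 2 ^ (m - 1) / ((n - m : ℕ) + 1 : ℝ) ≤ 1 / 2) (A : Est n m) :
    success p A ≤ 3 / 4 := by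
  have h := success_of_notBad (β := 1 / 2) h0 h1 hmn.le A (fun f => by
    have h2 := notBad_le_small h0 h1 (by omega : 0 < m) f
    refine h2.trans (hs.trans (by norm_num)))
  linarith

end Pool.Agent.Q211.Pair
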