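import Pool.Agent.Q211.Pair.Count

open Finset

namespace Pool.Agent.Q211.Pair

variable {n m : ℕ}

lemma log_fact (d : ℕ) (hd : 1 ≤ d) :
    Real.log (d.factorial : ℝ) ≤ 1 + Real.log d + d * Real.log d - d := by
  induction d, hd using Nat.le_induction with
  | base => simp
  | succ d hd ih =>
    have hd0 : (0 : ℝ) < d := by exact_mod_cast hd
    have hd1 : (0 : ℝ) < (d : ℝ) + 1 := by positivity
    rw [Nat.factorial_succ]
    push_cast
    rw [Real.log_mul hd1.ne' (by positivity)]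
    have h1 : 1 - (((d : ℝ) + 1) / d)⁻¹ ≤ Real.log (((d : ℝ) + 1) / d) :=
      Real.one_sub_inv_le_log_of_pos (by positivity)
    rw [Real.log_div hd1.ne' hd0.ne'] at h1
    have h2 : 1 - (((d : ℝ) + 1) / d)⁻¹ = 1 / ((d : ℝ) + 1) := by
      field_simp
      ring
    rw [h2] at h1
    have h3 := mul_le_mul_of_nonneg_left h1 hd1.le
    rw [mul_one_div_cancel hd1.ne'] at h3
    nlinarith

lemma one_sub_pow_ge {p : ℝ} (h0 : 0 < p) (hp : p ≤ 1 / 2) (hmp : m * p * p ≤ 1 / 2) (k : ℕ)
    (hk : k ≤ m) : Real.exp (-(m * p) - 1) ≤ (1 - p) ^ k := by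
  have hq : 0 < 1 - p := by linarith
  have h1 : 1 - (1 - p)⁻¹ ≤ Real.log (1 - p) := Real.one_sub_inv_le_log_of_pos hq
  have h2 : -(p + 2 * p * p) ≤ 1 - (1 - p)⁻¹ := by
    have h3 : (1 - p)⁻¹ ≤ 1 + p + 2 * p * p := by
      rw [inv_le_iff_one_le_mul₀ hq]
      nlinarith [mul_pos h0 h0, mul_nonneg (mul_pos h0 h0).le (by linarith : 0 ≤ 1 - 2 * p)]
    linarith
  have h4 : (1 - p) ^ m ≤ (1 - p) ^ k := pow_le_pow_of_le_one hq.le (by linarith) hk
  refine le_trans ?_ h4
  have h5 : (1 - p) ^ m = Real.exp (m * Real.log (1 - p)) := by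
    rw [Real.exp_nat_mul, Real.exp_log hq]
  rw [h5, Real.exp_le_exp]
  have h6 : (m : ℝ) * (-(p + 2 * p * p)) ≤ m * Real.log (1 - p) :=
    mul_le_mul_of_nonneg_left (h2.trans h1) (by positivity)
  nlinarith

/-- Lower bound on the probability of a low degree. -/
lemma ad_ge {p : ℝ} (h0 : 0 < p) (hp : p ≤ 1 / 2) (hm : 1 ≤ m) (hmp : m * p * p ≤ 1 / 2)
    (hL : 200 ≤ Real.log m) (hlam : m * p ≤ 305 / 100 * Real.log m)
    (hm2 : 20 * Real.log m ^ 2 ≤ m) (d : ℕ) (hd : d = ⌊2 / 5 * (m * p)⌋₊) :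
    200 ≤ m * ad p m d := by
  set L := Real.log m with hLd
  set lam : ℝ := m * p with hlamd
  have hm0 : (0 : ℝ) < m := by positivity
  have hlam0 : 0 < lam := mul_pos hm0 h0
  have hd1 : (d : ℝ) ≤ 2 / 5 * lam := by
    rw [hd]; exact Nat.floor_le (by positivity)
  have hd2 : 2 / 5 * lam < d + 1 := by
    rw [hd]; exact Nat.lt_floor_add_one _
  have hdL : (d : ℝ) ≤ 2 * L := by linarith
  have hdm : (d : ℝ) ^ 2 ≤ m / 2 := by
    have : (d : ℝ) ^ 2 ≤ (2 * L) ^ 2 := pow_le_pow_left₀ (by positivity) hdL 2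
    nlinarith
  have hdm' : (d : ℝ) ≤ m / 2 := by
    rcases Nat.eq_zero_or_pos d with h | h
    · rw [h]; simp; positivity
    · have : (1 : ℝ) ≤ d := by exact_mod_cast h
      nlinarith
  have hdmn : d ≤ m - 1 := by
    have h3 : (d : ℝ) + 1 ≤ m := by nlinarith
    have h4 : d + 1 ≤ m := by exact_mod_cast h3
    omega
  -- first factor
  have hchoose : ((m : ℝ) - d) ^ d / d.factorial ≤ ((m - 1).choose d : ℝ) := by
    have h1 := Nat.pow_le_choose (α := ℝ) d (m - 1)
    have h2 : m - 1 + 1 - d = m - d := by omega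
    rw [h2, Nat.cast_sub (by omega)] at h1
    exact h1
  have hber : 1 / 2 ≤ (1 - (d : ℝ) / m) ^ d := by
    have h1 : 1 + (d : ℝ) * (-((d : ℝ) / m)) ≤ (1 + -((d : ℝ) / m)) ^ d := by
      refine one_add_mul_le_pow ?_ d
      have : (d : ℝ) / m ≤ 1 := by rw [div_le_one hm0]; linarith
      linarith
    have h2 : (d : ℝ) * ((d : ℝ) / m) ≤ 1 / 2 := by
      rw [← mul_div_assoc, div_le_iff₀ hm0]
      nlinarith
    calc (1 : ℝ) / 2 ≤ 1 + (d : ℝ) * (-((d : ℝ) / m)) := by linarith
      _ ≤ _ := h1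
      _ = _ := by ring
  have hpow : lam ^ d / 2 ≤ ((m : ℝ) - d) ^ d * p ^ d := by
    have h1 : ((m : ℝ) - d) ^ d * p ^ d = lam ^ d * (1 - (d : ℝ) / m) ^ d := by
      rw [← mul_pow, ← mul_pow]
      congr 1
      rw [hlamd]
      field_simp
    rw [h1]
    have h2 : 0 ≤ lam ^ d := by positivity
    nlinarith
  have hq := one_sub_pow_ge (m := m) h0 hp hmp (m - 1 - d) (by omega)
  have had : lam ^ d / d.factorial / 2 * Real.exp (-lam - 1) ≤ ad p m d := by
    rw [ad]
    have hf : (0 : ℝ) < d.factorial := by positivity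
    have h1 : lam ^ d / d.factorial / 2 ≤ ((m - 1).choose d : ℝ) * p ^ d := by
      calc lam ^ d / d.factorial / 2 = (lam ^ d / 2) / d.factorial := by ring
        _ ≤ (((m : ℝ) - d) ^ d * p ^ d) / d.factorial := div_le_div_of_nonneg_right hpow hf.le
        _ = (((m : ℝ) - d) ^ d / d.factorial) * p ^ d := by ring
        _ ≤ _ := mul_le_mul_of_nonneg_right hchoose (by positivity)
    exact mul_le_mul h1 hq (Real.exp_pos _).le (by positivity)
  -- the Poisson factor
  have hlog2L0 : 0 ≤ Real.log (2 * L) := Real.log_nonneg (by linarith)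
  have hlog25 : 915 / 1000 ≤ Real.log (5 / 2) := by
    have h1 : 2 * (1 / 4 : ℝ) / (1 / 4 + 2) ≤ Real.log (1 + 1 / 4) :=
      Real.le_log_one_add_of_nonneg (by norm_num)
    have h2 : Real.log (5 / 2) = Real.log 2 + Real.log (1 + 1 / 4) := by
      rw [← Real.log_mul (by norm_num) (by norm_num)]; norm_num
    have h3 := Real.log_two_gt_d9
    rw [h2]
    norm_num at h1 ⊢
    linarith
  have hpois : Real.exp (766 / 1000 * lam - 3 - Real.log (2 * L)) ≤ lam ^ d / d.factorial := by
    rcases Nat.eq_zero_or_pos d with h | h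
    · rw [h]
      simp only [pow_zero, Nat.factorial_zero, Nat.cast_one, div_one]
      rw [h] at hd2
      push_cast at hd2
      refine Real.exp_le_one_iff.2 ?_
      linarith
    · have hdp : (0 : ℝ) < d := by exact_mod_cast h
      have hf : (0 : ℝ) < d.factorial := by positivity
      have h1 : lam ^ d / d.factorial = Real.exp (d * Real.log lam - Real.log d.factorial) := by
        rw [Real.exp_sub, Real.exp_nat_mul, Real.exp_log hlam0, Real.exp_log hf]
      rw [h1, Real.exp_le_exp]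
      have h2 := log_fact d h
      have h3 : Real.log (5 / 2) ≤ Real.log (lam / d) := by
        refine Real.log_le_log (by norm_num) ?_
        rw [le_div_iff₀ hdp]
        linarith
      rw [Real.log_div hlam0.ne' hdp.ne'] at h3
      have h4 : (d : ℝ) * (915 / 1000) ≤ d * (Real.log lam - Real.log d) :=
        mul_le_mul_of_nonneg_left (hlog25.trans h3) hdp.le
      have h5 : Real.log d ≤ Real.log (2 * L) := Real.log_le_log hdp hdL
      nlinarith
  have hlog2L : Real.log (2 * L) ≤ 4 / 100 * L + 3 := by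
    have h1 : Real.log (2 * L / 50) ≤ 2 * L / 50 - 1 :=
      Real.log_le_sub_one_of_pos (by positivity)
    rw [Real.log_div (by positivity) (by norm_num)] at h1
    have h2 : Real.log 50 ≤ 4 := by
      rw [Real.log_le_iff_le_exp (by norm_num)]
      have h3 := Real.exp_one_gt_d9
      have h4 : Real.exp 4 = Real.exp 1 ^ 4 := by rw [← Real.exp_nat_mul]; norm_num
      rw [h4]
      calc (50 : ℝ) ≤ 2.718 ^ 4 := by norm_num
        _ ≤ Real.exp 1 ^ 4 := pow_le_pow_left₀ (by norm_num) (by linarith) 4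
    linarith
  have hfin : m * (Real.exp (766 / 1000 * lam - 3 - Real.log (2 * L)) / 2 * Real.exp (-lam - 1)) ≤
      m * ad p m d := by
    refine mul_le_mul_of_nonneg_left (le_trans ?_ had) hm0.le
    refine mul_le_mul_of_nonneg_right ?_ (Real.exp_pos _).le
    linarith
  refine le_trans ?_ hfin
  have hmexp : (m : ℝ) = Real.exp L := (Real.exp_log hm0).symm
  have e1 : m * (Real.exp (766 / 1000 * lam - 3 - Real.log (2 * L)) / 2 * Real.exp (-lam - 1)) =
      Real.exp (L + (766 / 1000 * lam - 3 - Real.log (2 * L)) + (-lam - 1)) / 2 := by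
    rw [Real.exp_add, Real.exp_add, ← hmexp]; ring
  rw [e1]
  have h42 : 42 ≤ L + (766 / 1000 * lam - 3 - Real.log (2 * L)) + (-lam - 1) := by
    linarith
  have h21 : (22 : ℝ) ≤ Real.exp 21 := by
    have := Real.add_one_le_exp (21 : ℝ)
    linarith
  have hE : (484 : ℝ) ≤ Real.exp 42 := by
    have : Real.exp 42 = Real.exp 21 ^ 2 := by rw [← Real.exp_nat_mul]; norm_num
    rw [this]
    nlinarith
  have := Real.exp_le_exp.2 h42
  linarith

end Pool.Agent.Q211.Pair
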