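import Pool.Agent.Q211.Pair.Basic

open Finset

namespace Pool.Agent.Q211.Pair

/-- A (randomised) estimator: given the big graph and the relabelled subgraph, the probability of
outputting each vertex set. -/
structure Est (n m : ℕ) where
  pr : Gr (Fin n) → Gr (Fin m) → Finset (Fin n) → ℝ
  nonneg : ∀ x y T, 0 ≤ pr x y T
  total : ∀ x y, ∑ T, pr x y T ≤ 1

/-- The probability that the estimator returns the hidden set; `f` is the inverse of the uniform
relabelling of the uniform `m`-set. -/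
noncomputable def success {n m : ℕ} (p : ℝ) (A : Est n m) : ℝ :=
  Ex p (fun x : Gr (Fin n) => (∑ f : Fin m ↪ Fin n, A.pr x (pull f x) (univ.map f)) /
    (Fintype.card (Fin m ↪ Fin n) : ℝ))

variable {n m : ℕ}

lemma Est.le_one (A : Est n m) (x : Gr (Fin n)) (y : Gr (Fin m)) (T : Finset (Fin n)) :
    A.pr x y T ≤ 1 :=
  (Finset.single_le_sum (fun T _ => A.nonneg x y T) (Finset.mem_univ T)).trans (A.total x y)

/-- The placements of `y` in `x`. -/
noncomputable def Pl (x : Gr (Fin n)) (y : Gr (Fin m)) : Finset (Fin m ↪ Fin n) :=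
  univ.filter fun f => pull f x = y

/-- The placements with a given range. -/
noncomputable def PT (x : Gr (Fin n)) (y : Gr (Fin m)) (T : Finset (Fin n)) : Finset (Fin m ↪ Fin n) :=
  (Pl x y).filter fun f => univ.map f = T

/-- Automorphisms. -/
def aut (y : Gr (Fin m)) : Finset (Equiv.Perm (Fin m)) :=
  univ.filter fun σ => pull σ.toEmbedding y = y

lemma pull_trans (σ : Fin m ↪ Fin m) (f : Fin m ↪ Fin n) (x : Gr (Fin n)) :
    pull (σ.trans f) x = pull σ (pull f x) := by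
  funext e
  unfold pull
  congr 1
  apply Subtype.ext
  show Sym2.map (σ.trans f) e.1 = Sym2.map f (Sym2.map σ e.1)
  rw [Sym2.map_map]
  rfl

lemma PT_le_aut {x : Gr (Fin n)} {y : Gr (Fin m)} {f0 : Fin m ↪ Fin n} (h0 : f0 ∈ Pl x y) :
    (PT x y (univ.map f0)).card ≤ (aut y).card := by
  classical
  have h0' : pull f0 x = y := (Finset.mem_filter.1 h0).2
  have hex : ∀ f : Fin m ↪ Fin n, f ∈ PT x y (univ.map f0) →
      ∃ σ : Equiv.Perm (Fin m), σ.toEmbedding.trans f0 = f := by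
    intro f hf
    have hr : univ.map f = univ.map f0 := (Finset.mem_filter.1 hf).2
    have h1 : ∀ i, ∃ k, f0 k = f i := by
      intro i
      have : f i ∈ univ.map f0 := by
        rw [← hr]; exact Finset.mem_map_of_mem f (Finset.mem_univ i)
      obtain ⟨k, _, hk⟩ := Finset.mem_map.1 this
      exact ⟨k, hk⟩
    choose s hs using h1
    have hinj : Function.Injective s := by
      intro a b hab
      apply f.injective
      rw [← hs a, ← hs b, hab]
    refine ⟨Equiv.ofBijective s (Finite.injective_iff_bijective.1 hinj), ?_⟩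
    ext i
    show (f0 (s i) : ℕ) = f i
    rw [hs i]
  choose! Sg hSg using hex
  refine Finset.card_le_card_of_injOn Sg ?_ ?_
  · intro f hf
    have hf' : f ∈ PT x y (univ.map f0) := hf
    have hy : pull f x = y := (Finset.mem_filter.1 (Finset.mem_filter.1 hf').1).2
    refine Finset.mem_coe.2 (Finset.mem_filter.2 ⟨Finset.mem_univ _, ?_⟩)
    calc pull (Sg f).toEmbedding y = pull (Sg f).toEmbedding (pull f0 x) := by rw [h0']
      _ = pull ((Sg f).toEmbedding.trans f0) x := (pull_trans _ _ _).symm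
      _ = pull f x := by rw [hSg f hf']
      _ = y := hy
  · intro f hf f' hf' h
    rw [← hSg f hf, ← hSg f' hf', h]

lemma aut_le_PT {x : Gr (Fin n)} {y : Gr (Fin m)} {f0 : Fin m ↪ Fin n} (h0 : f0 ∈ Pl x y) :
    (aut y).card ≤ (PT x y (univ.map f0)).card := by
  classical
  have h0' : pull f0 x = y := (Finset.mem_filter.1 h0).2
  refine Finset.card_le_card_of_injOn (fun σ => σ.toEmbedding.trans f0) ?_ ?_
  · intro σ hσ
    have hσ' : pull σ.toEmbedding y = y := (Finset.mem_filter.1 (Finset.mem_coe.1 hσ)).2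
    refine Finset.mem_coe.2 (Finset.mem_filter.2 ⟨Finset.mem_filter.2 ⟨Finset.mem_univ _, ?_⟩, ?_⟩)
    · rw [pull_trans, h0', hσ']
    · ext j
      simp only [Finset.mem_map, Finset.mem_univ, true_and, Function.Embedding.trans_apply,
        Equiv.coe_toEmbedding]
      constructor
      · rintro ⟨i, rfl⟩
        exact ⟨σ i, rfl⟩
      · rintro ⟨i, rfl⟩
        exact ⟨σ.symm i, by simp⟩
  · intro σ _ τ _ h
    ext i
    have := congrArg (fun g : Fin m ↪ Fin n => g i) h
    have h2 : f0 (σ i) = f0 (τ i) := this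
    rw [f0.injective h2]

lemma PT_half {x : Gr (Fin n)} {y : Gr (Fin m)} {f1 f2 : Fin m ↪ Fin n} (h1 : f1 ∈ Pl x y)
    (h2 : f2 ∈ Pl x y) (hne : univ.map f1 ≠ univ.map f2) (T : Finset (Fin n)) :
    2 * (PT x y T).card ≤ (Pl x y).card := by
  classical
  rcases (PT x y T).eq_empty_or_nonempty with he | ⟨f, hf⟩
  · rw [he]; simp
  have hfP : f ∈ Pl x y := (Finset.mem_filter.1 hf).1
  have hfT : univ.map f = T := (Finset.mem_filter.1 hf).2
  obtain ⟨f', hf', hne'⟩ : ∃ f' ∈ Pl x y, univ.map f' ≠ T := by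
    by_cases h : univ.map f1 = T
    · exact ⟨f2, h2, fun h' => hne (h.trans h'.symm)⟩
    · exact ⟨f1, h1, h⟩
  have ha := PT_le_aut hfP
  rw [hfT] at ha
  have hb := aut_le_PT hf'
  have hdis : Disjoint (PT x y T) (PT x y (univ.map f')) := by
    rw [Finset.disjoint_left]
    intro g hg hg'
    exact hne' ((Finset.mem_filter.1 hg').2.symm.trans (Finset.mem_filter.1 hg).2)
  have hsub : PT x y T ∪ PT x y (univ.map f') ⊆ Pl x y :=
    Finset.union_subset (Finset.filter_subset _ _) (Finset.filter_subset _ _)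
  have hc := Finset.card_le_card hsub
  rw [Finset.card_union_of_disjoint hdis] at hc
  omega

lemma sum_Pl (A : Est n m) (x : Gr (Fin n)) (y : Gr (Fin m)) :
    ∑ f ∈ Pl x y, A.pr x (pull f x) (univ.map f) = ∑ T, (PT x y T).card * A.pr x y T := by
  classical
  rw [← Finset.sum_fiberwise (Pl x y) (fun f => univ.map f)]
  refine Finset.sum_congr rfl fun T _ => ?_
  rw [← nsmul_eq_mul, ← Finset.sum_const]
  refine Finset.sum_congr rfl fun f hf => ?_
  have h1 := Finset.mem_filter.1 hf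
  rw [h1.2, (Finset.mem_filter.1 h1.1).2]

lemma sum_all (A : Est n m) (x : Gr (Fin n)) :
    ∑ f, A.pr x (pull f x) (univ.map f) =
      ∑ y, ∑ f ∈ Pl x y, A.pr x (pull f x) (univ.map f) := by
  classical
  exact (Finset.sum_fiberwise univ (fun f => pull f x) _).symm

/-- Some other placement with a different range. -/
def Bad (x : Gr (Fin n)) (f : Fin m ↪ Fin n) : Prop :=
  ∃ f' : Fin m ↪ Fin n, pull f' x = pull f x ∧ univ.map f' ≠ univ.map f

lemma sum_Pl_le (A : Est n m) (x : Gr (Fin n)) (y : Gr (Fin m)) (c : ℝ) (hc : 0 ≤ c)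
    (h : ∀ T, ((PT x y T).card : ℝ) ≤ c) :
    ∑ f ∈ Pl x y, A.pr x (pull f x) (univ.map f) ≤ c := by
  rw [sum_Pl]
  calc ∑ T, ((PT x y T).card : ℝ) * A.pr x y T ≤ ∑ T, c * A.pr x y T :=
        Finset.sum_le_sum fun T _ => mul_le_mul_of_nonneg_right (h T) (A.nonneg _ _ _)
    _ = c * ∑ T, A.pr x y T := by rw [Finset.mul_sum]
    _ ≤ c * 1 := mul_le_mul_of_nonneg_left (A.total x y) hc
    _ = c := mul_one c

open Classical in
lemma ptw_bad (A : Est n m) (x : Gr (Fin n)) :
    ∑ f : Fin m ↪ Fin n, A.pr x (pull f x) (univ.map f) ≤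
      ∑ f : Fin m ↪ Fin n, (1 - 1 / 2 * (if Bad x f then (1 : ℝ) else 0)) := by
  rw [sum_all, ← Finset.sum_fiberwise univ (fun f : Fin m ↪ Fin n => pull f x)
    (fun f => (1 - 1 / 2 * (if Bad x f then (1 : ℝ) else 0)))]
  refine Finset.sum_le_sum fun y _ => ?_
  have hterm : ∀ f : Fin m ↪ Fin n, (1 : ℝ) / 2 ≤ 1 - 1 / 2 * (if Bad x f then (1 : ℝ) else 0) := by
    intro f; split_ifs <;> norm_num
  by_cases hb : ∃ f ∈ Pl x y, Bad x f
  · obtain ⟨f, hf, f', hf'1, hf'2⟩ := hb
    have hfy : pull f x = y := (Finset.mem_filter.1 hf).2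
    have hf'P : f' ∈ Pl x y := Finset.mem_filter.2 ⟨Finset.mem_univ _, hf'1.trans hfy⟩
    have h1 : ∑ f ∈ Pl x y, A.pr x (pull f x) (univ.map f) ≤ ((Pl x y).card : ℝ) / 2 := by
      refine sum_Pl_le A x y _ (by positivity) fun T => ?_
      have := PT_half hf'P hf hf'2 T
      have h2 : ((2 * (PT x y T).card : ℕ) : ℝ) ≤ ((Pl x y).card : ℝ) := by exact_mod_cast this
      push_cast at h2
      linarith
    refine h1.trans ?_
    have h3 : ∑ _f ∈ Pl x y, (1 : ℝ) / 2 ≤
        ∑ f ∈ Pl x y, (1 - 1 / 2 * (if Bad x f then (1 : ℝ) else 0)) :=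
      Finset.sum_le_sum fun f _ => hterm f
    rw [Finset.sum_const, nsmul_eq_mul] at h3
    have h4 : ((Pl x y).card : ℝ) / 2 = (Pl x y).card * (1 / 2) := by ring
    rw [h4]
    exact h3
  · push Not at hb
    have h1 : ∑ f ∈ Pl x y, A.pr x (pull f x) (univ.map f) ≤ ((Pl x y).card : ℝ) := by
      refine sum_Pl_le A x y _ (by positivity) fun T => ?_
      exact_mod_cast Finset.card_le_card (Finset.filter_subset _ _)
    refine h1.trans (le_of_eq ?_)
    have h2 : ∑ f ∈ Pl x y, (1 - 1 / 2 * (if Bad x f then (1 : ℝ) else 0)) =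
        ∑ _f ∈ Pl x y, (1 : ℝ) := by
      refine Finset.sum_congr rfl fun f hf => ?_
      rw [if_neg (hb f hf)]; norm_num
    rw [Finset.sum_const, nsmul_eq_mul, mul_one] at h2
    exact h2.symm

open Classical in
/-- First bound: ambiguity. -/
theorem success_le_bad {p β : ℝ} (h0 : 0 ≤ p) (h1 : p ≤ 1) (hmn : m ≤ n) (A : Est n m)
    (hβ : ∀ f : Fin m ↪ Fin n, β ≤ Ex p (fun x : Gr (Fin n) => if Bad x f then (1 : ℝ) else 0)) :
    success p A ≤ 1 - β / 2 := by
  have hN : (0 : ℝ) < Fintype.card (Fin m ↪ Fin n) := by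
    have : Nonempty (Fin m ↪ Fin n) := ⟨Fin.castLEEmb hmn⟩
    exact_mod_cast Fintype.card_pos
  have h2 : success p A ≤ Ex p (fun x : Gr (Fin n) =>
      (Fintype.card (Fin m ↪ Fin n) : ℝ)⁻¹ *
        ∑ f : Fin m ↪ Fin n, (1 - 1 / 2 * (if Bad x f then (1 : ℝ) else 0))) := by
    refine Ex_mono h0 h1 fun x => ?_
    rw [div_eq_inv_mul]
    exact mul_le_mul_of_nonneg_left (ptw_bad A x) (by positivity)
  refine h2.trans ?_
  rw [Ex_mul_left, Ex_sum]
  have h3 : ∑ f : Fin m ↪ Fin n, Ex p (fun x : Gr (Fin n) =>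
      1 - 1 / 2 * (if Bad x f then (1 : ℝ) else 0)) ≤ ∑ _f : Fin m ↪ Fin n, (1 - β / 2) := by
    refine Finset.sum_le_sum fun f _ => ?_
    rw [Ex_sub, Ex_const, Ex_mul_left]
    have := hβ f
    linarith
  rw [Finset.sum_const, Finset.card_univ, nsmul_eq_mul] at h3
  rw [inv_mul_le_iff₀ hN]
  exact h3

open Classical in
/-- Second bound: counting. -/
theorem success_le_count {p : ℝ} (h0 : 0 ≤ p) (h1 : p ≤ 1) (hmn : m ≤ n) (A : Est n m)
    (𝒜 : Finset (Gr (Fin m))) (h𝒜 : ∀ y ∈ 𝒜, (aut y).card ≤ 1) :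
    success p A ≤ 𝒜.card / (Fintype.card (Fin m ↪ Fin n) : ℝ) +
      Ex p (fun y : Gr (Fin m) => if y ∈ 𝒜 then (0 : ℝ) else 1) := by
  have hN : (0 : ℝ) < Fintype.card (Fin m ↪ Fin n) := by
    have : Nonempty (Fin m ↪ Fin n) := ⟨Fin.castLEEmb hmn⟩
    exact_mod_cast Fintype.card_pos
  have hptw : ∀ x : Gr (Fin n), ∑ f : Fin m ↪ Fin n, A.pr x (pull f x) (univ.map f) ≤
      𝒜.card + ∑ f : Fin m ↪ Fin n, (if pull f x ∈ 𝒜 then (0 : ℝ) else 1) := by
    intro x
    rw [sum_all, ← Finset.sum_fiberwise univ (fun f : Fin m ↪ Fin n => pull f x)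
      (fun f => (if pull f x ∈ 𝒜 then (0 : ℝ) else 1))]
    have h3 : (𝒜.card : ℝ) = ∑ y : Gr (Fin m), (if y ∈ 𝒜 then (1 : ℝ) else 0) := by
      rw [Finset.sum_ite_mem, Finset.univ_inter]; simp
    rw [h3, ← Finset.sum_add_distrib]
    refine Finset.sum_le_sum fun y _ => ?_
    by_cases hy : y ∈ 𝒜
    · rw [if_pos hy]
      have ha : ∑ f ∈ Pl x y, A.pr x (pull f x) (univ.map f) ≤ 1 := by
        refine sum_Pl_le A x y 1 zero_le_one fun T => ?_
        rcases (PT x y T).eq_empty_or_nonempty with he | ⟨f, hf⟩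
        · rw [he]; simp
        · have hfP : f ∈ Pl x y := (Finset.mem_filter.1 hf).1
          have hfT : univ.map f = T := (Finset.mem_filter.1 hf).2
          have := (PT_le_aut hfP).trans (h𝒜 y hy)
          rw [hfT] at this
          exact_mod_cast this
      have hb : 0 ≤ ∑ f ∈ univ.filter (fun f : Fin m ↪ Fin n => pull f x = y),
          (if pull f x ∈ 𝒜 then (0 : ℝ) else 1) :=
        Finset.sum_nonneg fun f _ => by split_ifs <;> norm_num
      linarith
    · rw [if_neg hy, zero_add]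
      refine Finset.sum_le_sum fun f hf => ?_
      have hfy : pull f x = y := (Finset.mem_filter.1 hf).2
      rw [if_neg (by rw [hfy]; exact hy)]
      exact A.le_one _ _ _
  have h2 : success p A ≤ Ex p (fun x : Gr (Fin n) =>
      (Fintype.card (Fin m ↪ Fin n) : ℝ)⁻¹ *
        (𝒜.card + ∑ f : Fin m ↪ Fin n, (if pull f x ∈ 𝒜 then (0 : ℝ) else 1))) := by
    refine Ex_mono h0 h1 fun x => ?_
    rw [div_eq_inv_mul]
    exact mul_le_mul_of_nonneg_left (hptw x) (by positivity)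
  refine h2.trans ?_
  rw [Ex_mul_left, Ex_add, Ex_const, Ex_sum]
  have h3 : ∀ f : Fin m ↪ Fin n, Ex p (fun x : Gr (Fin n) =>
      (if pull f x ∈ 𝒜 then (0 : ℝ) else 1)) =
      Ex p (fun y : Gr (Fin m) => if y ∈ 𝒜 then (0 : ℝ) else 1) := fun f =>
    Ex_marg p (em f) (em_inj f) (fun y : Gr (Fin m) => if y ∈ 𝒜 then (0 : ℝ) else 1)
  rw [Finset.sum_congr rfl fun f _ => h3 f, Finset.sum_const, Finset.card_univ, nsmul_eq_mul,
    mul_add, ← mul_assoc, inv_mul_cancel₀ hN.ne', one_mul, ← div_eq_inv_mul]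

end Pool.Agent.Q211.Pair
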