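import Pool.Agent.Q211.Pair.Success

open Finset

namespace Pool.Agent.Q211.Pair

variable {n m : ℕ}

/-- Adjacency. -/
def adj {V : Type*} [DecidableEq V] (y : Gr V) (i j : V) : Bool :=
  if h : i = j then false else y ⟨s(i, j), by simpa using h⟩

/-- The edge between two distinct vertices. -/
def mkE {V : Type*} (i j : V) (h : i ≠ j) : Edg V := ⟨s(i, j), by simpa using h⟩

lemma adj_of_ne {V : Type*} [DecidableEq V] (y : Gr V) {i j : V} (h : i ≠ j) :
    adj y i j = y (mkE i j h) := by
  rw [adj, dif_neg h]; rfl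

/-- The vertices outside the placement. -/
abbrev Out (f : Fin m ↪ Fin n) := {w : Fin n // ∀ i, w ≠ f i}

lemma card_Out (f : Fin m ↪ Fin n) : Fintype.card (Out f) = n - m := by
  classical
  have h1 : Fintype.card (Out f) = (univ.filter fun w : Fin n => ∀ i, w ≠ f i).card :=
    Fintype.card_subtype _
  have h2 : (univ.filter fun w : Fin n => ∀ i, w ≠ f i) = univ \ univ.map f := by
    ext w
    simp only [Finset.mem_filter, Finset.mem_univ, true_and, Finset.mem_sdiff, Finset.mem_map,
      not_exists]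
    exact ⟨fun h i hi => h i hi.symm, fun h i hi => h i hi.symm⟩
  rw [h1, h2, Finset.card_sdiff_of_subset (Finset.subset_univ _), Finset.card_map]
  simp

/-- The index map. -/
def gidx (f : Fin m ↪ Fin n) : Edg (Fin m) ⊕ (Out f × Fin m) → Edg (Fin n)
  | .inl e => em f e
  | .inr wj => mkE wj.1.1 (f wj.2) (wj.1.2 wj.2)

lemma gidx_inj (f : Fin m ↪ Fin n) : Function.Injective (gidx f) := by
  intro a b h
  rcases a with ⟨e, he⟩ | ⟨w, j⟩ <;> rcases b with ⟨e', he'⟩ | ⟨w', j'⟩
  · congr 1
    exact em_inj f h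
  · exfalso
    have h1 : Sym2.map f e = s(w'.1, f j') := congrArg Subtype.val h
    have h2 : w'.1 ∈ Sym2.map f e := by rw [h1]; exact Sym2.mem_mk_left _ _
    obtain ⟨i, _, hi⟩ := Sym2.mem_map.1 h2
    exact w'.2 i hi.symm
  · exfalso
    have h1 : s(w.1, f j) = Sym2.map f e' := congrArg Subtype.val h
    have h2 : w.1 ∈ Sym2.map f e' := by rw [← h1]; exact Sym2.mem_mk_left _ _
    obtain ⟨i, _, hi⟩ := Sym2.mem_map.1 h2
    exact w.2 i hi.symm
  · have h1 : s(w.1, f j) = s(w'.1, f j') := congrArg Subtype.val h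
    rw [Sym2.eq_iff] at h1
    rcases h1 with ⟨ha, hb⟩ | ⟨ha, _⟩
    · congr 1
      exact Prod.ext (Subtype.ext ha) (f.injective hb)
    · exact absurd ha (w.2 j')

/-- Replace the image of `i` by an outside vertex. -/
def swp (f : Fin m ↪ Fin n) (i : Fin m) (w : Out f) : Fin m ↪ Fin n :=
  ⟨fun j => if j = i then w.1 else f j, by
    intro a b h
    by_cases ha : a = i <;> by_cases hb : b = i
    · rw [ha, hb]
    · simp only [ha, hb, if_true, if_false] at h
      exact absurd h (w.2 b)
    · simp only [ha, hb, if_true, if_false] at h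
      exact absurd h.symm (w.2 a)
    · simp only [ha, hb, if_false] at h
      exact f.injective h⟩

lemma swp_bad {x : Gr (Fin n)} {f : Fin m ↪ Fin n} {i : Fin m} {w : Out f}
    (h : ∀ j, j ≠ i → x (gidx f (.inr (w, j))) = adj (pull f x) i j) : Bad x f := by
  refine ⟨swp f i w, ?_, ?_⟩
  · funext e
    obtain ⟨e, he⟩ := e
    induction e using Sym2.ind with
    | _ a b =>
      have hab : a ≠ b := by simpa using he
      have key : ∀ c d : Fin m, (hcd : c ≠ d) → c = i →
          x (em (swp f i w) (mkE c d hcd)) = x (em f (mkE c d hcd)) := by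
        intro c d hcd hc
        have hd : d ≠ i := fun h' => hcd (hc.trans h'.symm)
        have e1 : em (swp f i w) (mkE c d hcd) = gidx f (.inr (w, d)) := by
          apply Subtype.ext
          show s((swp f i w) c, (swp f i w) d) = s(w.1, f d)
          have : (swp f i w) c = w.1 := if_pos hc
          have h2 : (swp f i w) d = f d := if_neg hd
          rw [this, h2]
        rw [e1, h d hd, adj_of_ne _ (fun h' => hd h'.symm)]
        show x (em f (mkE i d _)) = _
        congr 2
        subst hc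
        rfl
      by_cases ha : a = i
      · exact key a b hab ha
      · by_cases hb : b = i
        · have := key b a hab.symm hb
          have e2 : ∀ g : Fin m ↪ Fin n, em g (mkE b a hab.symm) = em g ⟨s(a, b), he⟩ := by
            intro g
            congr 1
            apply Subtype.ext
            exact Sym2.eq_swap
          rw [e2, e2] at this
          exact this
        · show x (em (swp f i w) ⟨s(a, b), he⟩) = x (em f ⟨s(a, b), he⟩)
          congr 1
          apply Subtype.ext
          show s((swp f i w) a, (swp f i w) b) = s(f a, f b)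
          have h1 : (swp f i w) a = f a := if_neg ha
          have h2 : (swp f i w) b = f b := if_neg hb
          rw [h1, h2]
  · intro h'
    have h1 : w.1 ∈ univ.map (swp f i w) :=
      Finset.mem_map.2 ⟨i, Finset.mem_univ _, if_pos rfl⟩
    rw [h'] at h1
    obtain ⟨j, _, hj⟩ := Finset.mem_map.1 h1
    exact w.2 j hj.symm

/-- The probability that a fresh vertex has the pattern of `i`. -/
noncomputable def pat (p : ℝ) (y : Gr (Fin m)) (i : Fin m) : ℝ :=
  ∏ j, if j = i then 1 else bit p (adj y i j)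

lemma bit_le_one {p : ℝ} (h0 : 0 ≤ p) (h1 : p ≤ 1) (b : Bool) : bit p b ≤ 1 := by
  cases b <;> simp [bit] <;> linarith

lemma pat_nonneg {p : ℝ} (h0 : 0 ≤ p) (h1 : p ≤ 1) (y : Gr (Fin m)) (i : Fin m) :
    0 ≤ pat p y i := Finset.prod_nonneg fun j _ => by
  split_ifs
  · exact zero_le_one
  · exact bit_nonneg h0 h1 _

lemma pat_le_one {p : ℝ} (h0 : 0 ≤ p) (h1 : p ≤ 1) (y : Gr (Fin m)) (i : Fin m) :
    pat p y i ≤ 1 := Finset.prod_le_one (fun j _ => by
  split_ifs
  · exact zero_le_one
  · exact bit_nonneg h0 h1 _) fun j _ => by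
  split_ifs
  · exact le_rfl
  · exact bit_le_one h0 h1 _

open Classical in
lemma Ex_row (p : ℝ) (y : Gr (Fin m)) (i : Fin m) :
    Ex p (fun r : Fin m → Bool => if ∀ j, j ≠ i → r j = adj y i j then (1 : ℝ) else 0) =
      pat p y i := by
  have h1 : (fun r : Fin m → Bool => if ∀ j, j ≠ i → r j = adj y i j then (1 : ℝ) else 0) =
      fun r => ∏ j, (if j = i then (1 : ℝ) else if r j = adj y i j then 1 else 0) := by
    funext r
    by_cases h : ∀ j, j ≠ i → r j = adj y i j
    · rw [if_pos h]
      refine (Finset.prod_eq_one fun j _ => ?_).symm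
      split_ifs with h1 h2
      · rfl
      · rfl
      · exact absurd (h j h1) h2
    · rw [if_neg h]
      push Not at h
      obtain ⟨j, hj, hj'⟩ := h
      refine (Finset.prod_eq_zero (Finset.mem_univ j) ?_).symm
      rw [if_neg hj, if_neg hj']
  rw [h1, Ex_prod p (fun j b => if j = i then (1 : ℝ) else if b = adj y i j then 1 else 0), pat]
  refine Finset.prod_congr rfl fun j _ => ?_
  by_cases hj : j = i
  · simp only [if_pos hj]; ring
  · simp only [if_neg hj]
    cases h : adj y i j <;> simp [bit]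

open Classical in
lemma notBad_le {p : ℝ} (h0 : 0 ≤ p) (h1 : p ≤ 1) (f : Fin m ↪ Fin n)
    (sel : Gr (Fin m) → Fin m) :
    Ex p (fun x : Gr (Fin n) => if Bad x f then (0 : ℝ) else 1) ≤
      Ex p (fun y : Gr (Fin m) => (1 - pat p y (sel y)) ^ (n - m)) := by
  have hle : ∀ x : Gr (Fin n), (if Bad x f then (0 : ℝ) else 1) ≤
      (fun v : Edg (Fin m) ⊕ (Out f × Fin m) → Bool =>
        (fun (y : Gr (Fin m)) (z : Out f × Fin m → Bool) =>
          ∏ w : Out f, (1 - (if ∀ j, j ≠ sel y → z (w, j) = adj y (sel y) j then (1 : ℝ) else 0)))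
          (fun e => v (.inl e)) (fun wj => v (.inr wj))) (fun a => x (gidx f a)) := by
    intro x
    by_cases hb : Bad x f
    · rw [if_pos hb]
      refine Finset.prod_nonneg fun w _ => ?_
      split_ifs <;> norm_num
    · rw [if_neg hb]
      refine le_of_eq (Finset.prod_eq_one fun w _ => ?_).symm
      rw [if_neg, sub_zero]
      intro hc
      exact hb (swp_bad hc)
  refine (Ex_mono h0 h1 hle).trans (le_of_eq ?_)
  refine (Ex_marg p (gidx f) (gidx_inj f) (fun v : Edg (Fin m) ⊕ (Out f × Fin m) → Bool =>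
        (fun (y : Gr (Fin m)) (z : Out f × Fin m → Bool) =>
          ∏ w : Out f, (1 - (if ∀ j, j ≠ sel y → z (w, j) = adj y (sel y) j then (1 : ℝ) else 0)))
          (fun e => v (.inl e)) (fun wj => v (.inr wj)))).trans ?_
  refine (Ex_sumType p (fun (y : Gr (Fin m)) (z : Out f × Fin m → Bool) =>
          ∏ w : Out f, (1 - (if ∀ j, j ≠ sel y → z (w, j) = adj y (sel y) j then (1 : ℝ)
            else 0)))).trans ?_
  refine congrArg _ (funext fun y => ?_)
  rw [Ex_rows p (fun (w : Out f) (r : Fin m → Bool) =>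
    (1 - (if ∀ j, j ≠ sel y → r j = adj y (sel y) j then (1 : ℝ) else 0)))]
  simp only [Ex_sub, Ex_const, Ex_row]
  rw [Finset.prod_const, Finset.card_univ, card_Out]

open Classical in
lemma Ex_bad {p : ℝ} (f : Fin m ↪ Fin n) :
    Ex p (fun x : Gr (Fin n) => if Bad x f then (1 : ℝ) else 0) =
      1 - Ex p (fun x : Gr (Fin n) => if Bad x f then (0 : ℝ) else 1) := by
  have h : (fun x : Gr (Fin n) => if Bad x f then (1 : ℝ) else 0) =
      fun x => 1 - (if Bad x f then (0 : ℝ) else 1) := by
    funext x; split_ifs <;> norm_num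
  rw [h, Ex_sub, Ex_const]

/-- Degree. -/
def deg (y : Gr (Fin m)) (i : Fin m) : ℕ := (univ.filter fun j => adj y i j = true).card

lemma pat_of_deg {p : ℝ} (y : Gr (Fin m)) (i : Fin m) :
    pat p y i = p ^ deg y i * (1 - p) ^ (m - 1 - deg y i) := by
  classical
  rw [pat, ← Finset.mul_prod_erase univ _ (Finset.mem_univ i), if_pos rfl, one_mul]
  have h1 : ∀ j ∈ univ.erase i, (if j = i then (1 : ℝ) else bit p (adj y i j)) =
      if adj y i j = true then p else 1 - p := by
    intro j hj
    rw [if_neg (Finset.ne_of_mem_erase hj)]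
    cases h : adj y i j <;> simp [bit]
  rw [Finset.prod_congr rfl h1, Finset.prod_ite, Finset.prod_const, Finset.prod_const]
  have h2 : (univ.erase i).filter (fun j => adj y i j = true) =
      univ.filter fun j => adj y i j = true := by
    ext j
    simp only [Finset.mem_filter, Finset.mem_erase, Finset.mem_univ, and_true, true_and]
    refine ⟨fun h => h.2, fun h => ⟨fun hj => ?_, h⟩⟩
    rw [hj, adj, dif_pos rfl] at h
    exact absurd h (by simp)
  rw [h2]
  have h3 : ((univ.erase i).filter fun j => ¬ adj y i j = true).card = m - 1 - deg y i := by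
    have := Finset.card_filter_add_card_filter_not (s := univ.erase i)
      (fun j => adj y i j = true)
    rw [h2, Finset.card_erase_of_mem (Finset.mem_univ i), Finset.card_univ,
      Fintype.card_fin] at this
    unfold deg
    omega
  rw [h3]
  rfl

open Classical in
/-- Ambiguity through a vertex of degree `d`. -/
lemma notBad_le_deg {p : ℝ} (h0 : 0 ≤ p) (h1 : p ≤ 1) (hm : 0 < m) (f : Fin m ↪ Fin n) (d : ℕ) :
    Ex p (fun x : Gr (Fin n) => if Bad x f then (0 : ℝ) else 1) ≤
      Ex p (fun y : Gr (Fin m) => if ∃ i, deg y i = d then (0 : ℝ) else 1) +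
        (1 - p ^ d * (1 - p) ^ (m - 1 - d)) ^ (n - m) := by
  have hch : ∀ y : Gr (Fin m), ∃ i : Fin m, (∃ i', deg y i' = d) → deg y i = d := by
    intro y
    by_cases h : ∃ i', deg y i' = d
    · obtain ⟨i, hi⟩ := h
      exact ⟨i, fun _ => hi⟩
    · exact ⟨⟨0, hm⟩, fun h' => absurd h' h⟩
  choose sel hsel using hch
  refine (notBad_le h0 h1 f sel).trans ?_
  have hq0 : 0 ≤ 1 - p ^ d * (1 - p) ^ (m - 1 - d) := by
    have : p ^ d * (1 - p) ^ (m - 1 - d) ≤ 1 :=
      mul_le_one₀ (pow_le_one₀ h0 h1) (pow_nonneg (by linarith) _)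
        (pow_le_one₀ (by linarith) (by linarith))
    linarith
  have h2 : (1 - p ^ d * (1 - p) ^ (m - 1 - d)) ^ (n - m) =
      Ex p (fun _ : Gr (Fin m) => (1 - p ^ d * (1 - p) ^ (m - 1 - d)) ^ (n - m)) :=
    (Ex_const _ _).symm
  rw [h2, ← Ex_add]
  refine Ex_mono h0 h1 fun y => ?_
  have hp0 := pat_nonneg h0 h1 y (sel y)
  have hp1 := pat_le_one h0 h1 y (sel y)
  by_cases h : ∃ i, deg y i = d
  · rw [if_pos h, zero_add, pat_of_deg, hsel y h]
  · rw [if_neg h]
    have : (1 - pat p y (sel y)) ^ (n - m) ≤ 1 := pow_le_one₀ (by linarith) (by linarith)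
    have h3 := pow_nonneg hq0 (n - m)
    linarith

open Classical in
/-- Ambiguity for small `m`. -/
lemma notBad_le_small {p : ℝ} (h0 : 0 ≤ p) (h1 : p ≤ 1) (hm : 0 < m) (f : Fin m ↪ Fin n) :
    Ex p (fun x : Gr (Fin n) => if Bad x f then (0 : ℝ) else 1) ≤
      2 ^ (m - 1) / ((n - m : ℕ) + 1 : ℝ) := by
  set i0 : Fin m := ⟨0, hm⟩
  refine (notBad_le h0 h1 f fun _ => i0).trans ?_
  have hg : Function.Injective (fun j : {j : Fin m // j ≠ i0} => mkE i0 j.1 j.2.symm) := by
    intro a b h
    have h1 : s(i0, a.1) = s(i0, b.1) := congrArg Subtype.val h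
    rw [Sym2.eq_iff] at h1
    rcases h1 with ⟨_, h2⟩ | ⟨h2, _⟩
    · exact Subtype.ext h2
    · exact absurd h2.symm b.2
  have h2 : (fun y : Gr (Fin m) => (1 - pat p y i0) ^ (n - m)) =
      fun y => (fun a : {j : Fin m // j ≠ i0} → Bool => (1 - wt p a) ^ (n - m))
        (fun j => y (mkE i0 j.1 j.2.symm)) := by
    funext y
    congr 2
    rw [pat, wt, ← Finset.mul_prod_erase univ _ (Finset.mem_univ i0), if_pos rfl, one_mul]
    rw [Finset.prod_subtype (univ.erase i0) (p := fun j => j ≠ i0) (fun j => by simp)]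
    refine Finset.prod_congr rfl fun j _ => ?_
    rw [if_neg j.2, adj_of_ne _ j.2.symm]
  rw [h2]
  refine (Ex_marg p (fun j : {j : Fin m // j ≠ i0} => mkE i0 j.1 j.2.symm) hg
    (fun a : {j : Fin m // j ≠ i0} → Bool => (1 - wt p a) ^ (n - m))).le.trans ?_
  rw [Ex]
  have h3 : ∀ a : {j : Fin m // j ≠ i0} → Bool, wt p a * (1 - wt p a) ^ (n - m) ≤
      1 / ((n - m : ℕ) + 1 : ℝ) := by
    intro a
    have ha0 := wt_nonneg h0 h1 a
    have ha1 : wt p a ≤ 1 := Finset.prod_le_one (fun j _ => bit_nonneg h0 h1 _)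
      fun j _ => bit_le_one h0 h1 _
    set t := wt p a
    set N := n - m
    have hpos : (0 : ℝ) < (N : ℝ) + 1 := by positivity
    rw [le_div_iff₀ hpos]
    have hB : 1 + (N : ℝ) * t ≤ (1 + t) ^ N := one_add_mul_le_pow (by linarith) N
    have h4 : (1 - t) ^ N * (1 + t) ^ N ≤ 1 := by
      rw [← mul_pow]
      exact pow_le_one₀ (by nlinarith) (by nlinarith)
    have h5 : (1 - t) ^ N * (1 + N * t) ≤ 1 :=
      (mul_le_mul_of_nonneg_left hB (pow_nonneg (by linarith) _)).trans h4
    have h6 : t * ((N : ℝ) + 1) ≤ 1 + N * t := by nlinarith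
    calc t * (1 - t) ^ N * ((N : ℝ) + 1) = (1 - t) ^ N * (t * ((N : ℝ) + 1)) := by ring
      _ ≤ (1 - t) ^ N * (1 + N * t) := mul_le_mul_of_nonneg_left h6 (pow_nonneg (by linarith) _)
      _ ≤ 1 := h5
  refine (Finset.sum_le_sum fun a _ => h3 a).trans (le_of_eq ?_)
  rw [Finset.sum_const, Finset.card_univ, nsmul_eq_mul, Fintype.card_fun, Fintype.card_bool]
  have h4 : Fintype.card {j : Fin m // j ≠ i0} = m - 1 := by
    rw [Fintype.card_subtype_compl, Fintype.card_fin]; simp
  rw [h4]
  push_cast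
  ring

end Pool.Agent.Q211.Pair
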